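import Mathlib

/-!
# A rank generating polynomial over the field with two elements
-/

set_option autoImplicit false

open Submodule Module Polynomial

namespace Pool.Agent.R21.FP

variable {E : Type} [AddCommGroup E] [Module (ZMod 2) E] [FiniteDimensional (ZMod 2) E]

/-- the span of `U` and of the elements of `L` -/
def sp (U : Submodule (ZMod 2) E) (L : Multiset E) : Submodule (ZMod 2) E :=
  U ⊔ span (ZMod 2) {z | z ∈ L}

/-- adjunction of a vector -/
def ad (U : Submodule (ZMod 2) E) (v : E) : Submodule (ZMod 2) E := U ⊔ span (ZMod 2) {v}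

omit [FiniteDimensional (ZMod 2) E] in
lemma sp_zero (U : Submodule (ZMod 2) E) : sp U 0 = U := by simp [sp]

omit [FiniteDimensional (ZMod 2) E] in
lemma sp_cons (U : Submodule (ZMod 2) E) (v : E) (L : Multiset E) :
    sp U (v ::ₘ L) = ad (sp U L) v := by
  unfold sp ad
  have : {z | z ∈ v ::ₘ L} = {z | z ∈ L} ∪ {v} := by
    ext z; simp [or_comm]
  rw [this, span_union, sup_assoc]

omit [FiniteDimensional (ZMod 2) E] in
lemma sp_ad (U : Submodule (ZMod 2) E) (v : E) (L : Multiset E) :
    sp (ad U v) L = ad (sp U L) v := by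
  unfold sp ad
  rw [sup_right_comm]

omit [FiniteDimensional (ZMod 2) E] in
lemma le_sp (U : Submodule (ZMod 2) E) (L : Multiset E) : U ≤ sp U L := le_sup_left

omit [FiniteDimensional (ZMod 2) E] in
lemma mem_sp {U : Submodule (ZMod 2) E} {L : Multiset E} {v : E} (h : v ∈ L) : v ∈ sp U L :=
  (le_sup_right : _ ≤ sp U L) (subset_span h)

omit [FiniteDimensional (ZMod 2) E] in
lemma sp_mono {U U' : Submodule (ZMod 2) E} {L L' : Multiset E} (h : U ≤ sp U' L')
    (h' : ∀ v ∈ L, v ∈ sp U' L') : sp U L ≤ sp U' L' :=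
  sup_le h (span_le.mpr h')

omit [FiniteDimensional (ZMod 2) E] in
lemma mem_ad {U : Submodule (ZMod 2) E} {v x : E} : x ∈ ad U v ↔ x ∈ U ∨ x + v ∈ U := by
  unfold ad
  rw [mem_sup]
  constructor
  · rintro ⟨y, hy, z, hz, rfl⟩
    rw [mem_span_singleton] at hz
    obtain ⟨c, rfl⟩ := hz
    have hc : c = 0 ∨ c = 1 := by
      fin_cases c
      · left; rfl
      · right; rfl
    rcases hc with rfl | rfl
    · left; simpa using hy
    · right
      rw [one_smul, add_assoc, ZModModule.add_self, add_zero]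
      exact hy
  · rintro (h | h)
    · exact ⟨x, h, 0, zero_mem _, add_zero x⟩
    · exact ⟨x + v, h, v, mem_span_singleton_self v, by
        rw [add_assoc, ZModModule.add_self, add_zero]⟩

omit [FiniteDimensional (ZMod 2) E] in
lemma le_ad (U : Submodule (ZMod 2) E) (v : E) : U ≤ ad U v := le_sup_left

omit [FiniteDimensional (ZMod 2) E] in
lemma mem_ad_self (U : Submodule (ZMod 2) E) (v : E) : v ∈ ad U v :=
  mem_ad.mpr (Or.inr (by rw [ZModModule.add_self]; exact zero_mem _))

omit [FiniteDimensional (ZMod 2) E] in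
lemma ad_of_mem {U : Submodule (ZMod 2) E} {v : E} (h : v ∈ U) : ad U v = U := by
  apply sup_eq_left.mpr
  rw [span_singleton_le_iff_mem]
  exact h

/-- the rank -/
noncomputable def rk (U : Submodule (ZMod 2) E) (L : Multiset E) : ℕ := finrank (ZMod 2) (sp U L)

lemma finrank_ad_of_notMem {U : Submodule (ZMod 2) E} {v : E} (h : v ∉ U) :
    finrank (ZMod 2) (ad U v) = finrank (ZMod 2) U + 1 := by
  have hv : v ≠ 0 := by rintro rfl; exact h (zero_mem _)
  have h1 := finrank_sup_add_finrank_inf_eq U (span (ZMod 2) {v})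
  have h2 : U ⊓ span (ZMod 2) {v} = ⊥ := by
    rw [eq_bot_iff]
    rintro x ⟨hx, hx'⟩
    rw [SetLike.mem_coe, mem_span_singleton] at hx'
    obtain ⟨c, rfl⟩ := hx'
    have hc : c = 0 ∨ c = 1 := by
      fin_cases c
      · left; rfl
      · right; rfl
    rcases hc with rfl | rfl
    · simp
    · exfalso; apply h; simpa using hx
  rw [h2, finrank_bot, add_zero, finrank_span_singleton hv] at h1
  exact h1

lemma rk_le (U : Submodule (ZMod 2) E) (L : Multiset E) : rk U L ≤ rk U 0 + L.card := by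
  induction L using Multiset.induction_on with
  | empty => simp
  | cons v L ih =>
    rw [Multiset.card_cons]
    unfold rk at ih ⊢
    rw [sp_cons]
    by_cases hv : v ∈ sp U L
    · rw [ad_of_mem hv]; omega
    · rw [finrank_ad_of_notMem hv]; omega

lemma rk_mono {U U' : Submodule (ZMod 2) E} {L L' : Multiset E} (h : sp U L ≤ sp U' L') :
    rk U L ≤ rk U' L' := finrank_mono h

/-- the polynomial -/
noncomputable def f (U : Submodule (ZMod 2) E) (L : Multiset E) : ℤ[X] :=
  (L.powerset.map (fun Z => (-1) ^ (rk U L - rk U Z) * X ^ (Z.card - (rk U Z - rk U 0)))).sum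

lemma f_zero (U : Submodule (ZMod 2) E) : f U 0 = 1 := by
  simp [f]

lemma sp_le_of_le {U : Submodule (ZMod 2) E} {Z L : Multiset E} (h : Z ≤ L) : sp U Z ≤ sp U L :=
  sp_mono (le_sp _ _) (fun _ hv => mem_sp (Multiset.mem_of_le h hv))

/-- R1 -/
lemma f_cons_mem {U : Submodule (ZMod 2) E} {v : E} (h : v ∈ U) (L : Multiset E) :
    f U (v ::ₘ L) = (X + 1) * f U L := by
  have e : ∀ Z, rk U (v ::ₘ Z) = rk U Z := fun Z => by
    unfold rk; rw [sp_cons, ad_of_mem (le_sp U Z h)]
  unfold f
  rw [Multiset.powerset_cons, Multiset.map_add, Multiset.sum_add, Multiset.map_map, add_mul,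
    one_mul, add_comm, ← Multiset.sum_map_mul_left]
  congr 1
  · congr 1
    apply Multiset.map_congr rfl
    intro Z hZ
    have h1 := rk_le U Z
    simp only [Function.comp_apply, e, Multiset.card_cons]
    rw [show Z.card + 1 - (rk U Z - rk U 0) = Z.card - (rk U Z - rk U 0) + 1 by omega, pow_succ]
    ring
  · rw [e]

/-- R2 -/
lemma f_cons_two {U : Submodule (ZMod 2) E} {v : E} {L : Multiset E} (h : v ∉ U)
    (h' : v ∈ sp U L) : f U (v ::ₘ L) = f (ad U v) L + f U L := by
  have e : ∀ Z, rk U (v ::ₘ Z) = rk (ad U v) Z := fun Z => by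
    unfold rk; rw [sp_cons, sp_ad]
  have e0 : rk (ad U v) 0 = rk U 0 + 1 := by
    unfold rk; rw [sp_zero, sp_zero, finrank_ad_of_notMem h]
  have eL : rk (ad U v) L = rk U L := by
    unfold rk; rw [sp_ad, ad_of_mem h']
  unfold f
  rw [Multiset.powerset_cons, Multiset.map_add, Multiset.sum_add, Multiset.map_map, add_comm]
  congr 1
  · congr 1
    apply Multiset.map_congr rfl
    intro Z hZ
    have h1 := rk_le (ad U v) Z
    have h2 : rk (ad U v) 0 ≤ rk (ad U v) Z := rk_mono (by rw [sp_zero]; exact le_sp _ _)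
    simp only [Function.comp_apply, e, Multiset.card_cons]
    rw [show Z.card + 1 - (rk (ad U v) Z - rk U 0) = Z.card - (rk (ad U v) Z - rk (ad U v) 0) by
      omega]
  · rw [e, eL]

/-- R3 -/
lemma rk_cons_notMem {U : Submodule (ZMod 2) E} {v : E} {L Z : Multiset E} (h : v ∉ sp U L)
    (hZ : Z ≤ L) : rk U (v ::ₘ Z) = rk U Z + 1 := by
  unfold rk
  rw [sp_cons, finrank_ad_of_notMem]
  exact fun h' => h (sp_le_of_le hZ h')

lemma f_cons_zero {U : Submodule (ZMod 2) E} {v : E} {L : Multiset E} (h : v ∉ sp U L) :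
    f U (v ::ₘ L) = 0 := by
  unfold f
  rw [Multiset.powerset_cons, Multiset.map_add, Multiset.sum_add, Multiset.map_map, add_comm,
    ← Multiset.sum_map_add]
  apply Multiset.sum_eq_zero
  intro x hx
  rw [Multiset.mem_map] at hx
  obtain ⟨Z, hZ, rfl⟩ := hx
  rw [Multiset.mem_powerset] at hZ
  have h1 := rk_le U Z
  have h2 : rk U 0 ≤ rk U Z := rk_mono (by rw [sp_zero]; exact le_sp _ _)
  have h3 : rk U Z ≤ rk U L := rk_mono (sp_le_of_le hZ)
  simp only [Function.comp_apply, rk_cons_notMem h hZ, rk_cons_notMem h le_rfl, Multiset.card_cons]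
  rw [show rk U L + 1 - (rk U Z + 1) = rk U L - rk U Z by omega,
    show Z.card + 1 - (rk U Z + 1 - rk U 0) = Z.card - (rk U Z - rk U 0) by omega,
    show rk U L + 1 - rk U Z = rk U L - rk U Z + 1 by omega, pow_succ]
  ring

/-- R3, second part -/
lemma f_ad {U : Submodule (ZMod 2) E} {v : E} {L : Multiset E} (h : v ∉ sp U L) :
    f (ad U v) L = f U L := by
  have e : ∀ Z ≤ L, rk (ad U v) Z = rk U Z + 1 := fun Z hZ => by
    rw [← rk_cons_notMem h hZ]
    unfold rk; rw [sp_cons, sp_ad]
  unfold f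
  congr 1
  apply Multiset.map_congr rfl
  intro Z hZ
  rw [Multiset.mem_powerset] at hZ
  have h2 : rk U 0 ≤ rk U Z := rk_mono (by rw [sp_zero]; exact le_sp _ _)
  rw [e L le_rfl, e Z hZ, e 0 (Multiset.zero_le L)]
  rw [show rk U L + 1 - (rk U Z + 1) = rk U L - rk U Z by omega,
    show rk U Z + 1 - (rk U 0 + 1) = rk U Z - rk U 0 by omega]

/-- R4 -/
lemma f_congr {U : Submodule (ZMod 2) E} {v w : E} (h : v + w ∈ U) (L : Multiset E) :
    f U (v ::ₘ L) = f U (w ::ₘ L) := by
  have hw : w = v + (v + w) := by rw [← add_assoc, ZModModule.add_self, zero_add]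
  have hv : v = w + (v + w) := by
    rw [add_comm v w, ← add_assoc, ZModModule.add_self, zero_add]
  have key : ∀ M : Submodule (ZMod 2) E, U ≤ M → (v ∈ M ↔ w ∈ M) := by
    intro M hM
    constructor
    · intro h1; rw [hw]; exact add_mem h1 (hM h)
    · intro h1; rw [hv]; exact add_mem h1 (hM h)
  have hfst : ad U v = ad U w := by
    ext x
    rw [mem_ad, mem_ad]
    have e1 : x + v + (v + w) = x + w := by
      rw [add_assoc, ← add_assoc v v w, ZModModule.add_self, zero_add]
    have e2 : x + w + (v + w) = x + v := by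
      rw [add_comm v w, add_assoc, ← add_assoc w w v, ZModModule.add_self, zero_add]
    constructor
    · rintro (h1 | h1)
      · exact Or.inl h1
      · right; rw [← e1]; exact add_mem h1 h
    · rintro (h1 | h1)
      · exact Or.inl h1
      · right; rw [← e2]; exact add_mem h1 h
  by_cases h1 : v ∈ U
  · rw [f_cons_mem h1, f_cons_mem ((key U le_rfl).mp h1)]
  · have h1' : w ∉ U := fun h2 => h1 ((key U le_rfl).mpr h2)
    by_cases h2 : v ∈ sp U L
    · rw [f_cons_two h1 h2, f_cons_two h1' ((key _ (le_sp U L)).mp h2), hfst]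
    · rw [f_cons_zero h2, f_cons_zero (fun h3 => h2 ((key _ (le_sp U L)).mpr h3))]

end Pool.Agent.R21.FP
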