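import Pool.Agent.R21.FP.Rung

/-!
# Graphs as multisets of vectors
-/

set_option autoImplicit false
set_option linter.unusedSectionVars false

open Submodule Module Polynomial

namespace Pool.Agent.R21.FP

variable {V : Type} [Fintype V] [DecidableEq V]

/-- the vector of an edge -/
def ed (a b : V) : V → ZMod 2 := fun s => (if s = a then 1 else 0) + (if s = b then 1 else 0)

lemma ed_apply (a b s : V) : ed a b s = (if s = a then 1 else 0) + (if s = b then 1 else 0) := rfl

lemma ed_comm (a b : V) : ed a b = ed b a := by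
  funext s; rw [ed_apply, ed_apply, add_comm]

lemma ed_eq_one {a b s : V} (hab : a ≠ b) : ed a b s = 1 ↔ s = a ∨ s = b := by
  rw [ed_apply]
  by_cases h1 : s = a
  · have h2 : s ≠ b := fun h2 => hab (h1.symm.trans h2)
    simp [h1, hab]
  · by_cases h2 : s = b
    · simp [h2, Ne.symm hab]
    · simp [h1, h2]

lemma ed_self (a : V) : ed a a = 0 := by
  funext s; rw [ed_apply]; split_ifs <;> simp [CharTwo.add_self_eq_zero]

lemma ed_add (a b c : V) : ed a b + ed a c = ed b c := by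
  funext s
  rw [Pi.add_apply, ed_apply, ed_apply, ed_apply]
  have h : ∀ x y z : ZMod 2, x + y + (x + z) = y + z := by decide
  exact h _ _ _

lemma ed_add' (a b c : V) : ed a b + ed b c = ed a c := by
  rw [ed_comm a b, ed_add]

lemma ed_inj {a b c : V} (h : ed a b = ed a c) (hab : a ≠ b) : b = c := by
  have h1 : ed a b b = 1 := (ed_eq_one hab).mpr (Or.inr rfl)
  rw [h] at h1
  by_cases hac : a = c
  · subst hac; rw [ed_self] at h1; exact absurd h1 (by simp)
  · rcases (ed_eq_one hac).mp h1 with h2 | h2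
    · exact absurd h2.symm hab
    · exact h2

/-- functional of a labelling -/
def lab (x : V → ZMod 2) : (V → ZMod 2) →ₗ[ZMod 2] ZMod 2 where
  toFun g := ∑ s, x s * g s
  map_add' g h := by simp only [Pi.add_apply, mul_add, Finset.sum_add_distrib]
  map_smul' c g := by
    simp only [Pi.smul_apply, smul_eq_mul, RingHom.id_apply, Finset.mul_sum]
    apply Finset.sum_congr rfl
    intro i _
    ring

lemma lab_ed (x : V → ZMod 2) (a b : V) : lab x (ed a b) = x a + x b := by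
  show ∑ s, x s * ed a b s = _
  simp only [ed_apply, mul_add, Finset.sum_add_distrib, mul_ite, mul_one, mul_zero,
    Finset.sum_ite_eq', Finset.mem_univ, if_true]

/-- number of edges that cross -/
def cut (x : V → ZMod 2) (L : Multiset (V → ZMod 2)) : ℕ := L.countP (fun g => lab x g = 1)

/-- degree -/
def dg (s : V) (L : Multiset (V → ZMod 2)) : ℕ := L.countP (fun g => g s = 1)

lemma cut_cons (x : V → ZMod 2) (g : V → ZMod 2) (L : Multiset (V → ZMod 2)) :
    cut x (g ::ₘ L) = cut x L + if lab x g = 1 then 1 else 0 := by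
  unfold cut; rw [Multiset.countP_cons]

lemma dg_cons (s : V) (g : V → ZMod 2) (L : Multiset (V → ZMod 2)) :
    dg s (g ::ₘ L) = dg s L + if g s = 1 then 1 else 0 := by
  unfold dg; rw [Multiset.countP_cons]

lemma cut_zero (x : V → ZMod 2) : cut x 0 = 0 := rfl
lemma dg_zero (s : V) : dg s 0 = 0 := rfl

/-- cubic graph with the vertex set `S` -/
structure Cub (S : Finset V) (L : Multiset (V → ZMod 2)) : Prop where
  edge : ∀ g ∈ L, ∃ a ∈ S, ∃ b ∈ S, a ≠ b ∧ g = ed a b
  deg : ∀ s ∈ S, dg s L = 3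

/-- two edge connected graph -/
def TwoEC (S : Finset V) (L : Multiset (V → ZMod 2)) : Prop :=
  ∀ x : V → ZMod 2, ∀ s ∈ S, ∀ t ∈ S, x s ≠ x t → 2 ≤ cut x L

lemma exists_lab (φ : (V → ZMod 2) →ₗ[ZMod 2] ZMod 2) : ∃ x, lab x = φ := by
  refine ⟨fun s => φ (Pi.single s 1), ?_⟩
  apply LinearMap.pi_ext'
  intro s
  ext
  show ∑ t, φ (Pi.single t 1) * (Pi.single s (1 : ZMod 2) : V → ZMod 2) t = φ (Pi.single s 1)
  rw [Finset.sum_eq_single s]
  · simp
  · intro t _ ht; simp [ht]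
  · simp

/-- separation -/
lemma exists_sep {U : Submodule (ZMod 2) (V → ZMod 2)} {g : V → ZMod 2} (h : g ∉ U) :
    ∃ x : V → ZMod 2, (∀ u ∈ U, lab x u = 0) ∧ lab x g ≠ 0 := by
  obtain ⟨φ, h1, h2⟩ := Submodule.exists_le_ker_of_notMem h
  obtain ⟨x, hx⟩ := exists_lab φ
  refine ⟨x, ?_, ?_⟩
  · intro u hu; rw [hx]; exact h2 hu
  · rw [hx]; exact h1

lemma cut_eq_zero {x : V → ZMod 2} {L : Multiset (V → ZMod 2)} (h : ∀ g ∈ L, lab x g = 0) :
    cut x L = 0 := by
  unfold cut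
  rw [Multiset.countP_eq_zero]
  intro g hg
  rw [h g hg]
  decide

lemma dg_eq_zero {s : V} {L : Multiset (V → ZMod 2)} (h : ∀ g ∈ L, g s = 0) : dg s L = 0 := by
  unfold dg
  rw [Multiset.countP_eq_zero]
  intro g hg
  rw [h g hg]
  decide

lemma zm2 (x : ZMod 2) : x = 0 ∨ x = 1 := by
  fin_cases x
  · left; rfl
  · right; rfl

lemma TwoEC.conn {S : Finset V} {L : Multiset (V → ZMod 2)} (h : TwoEC S L) {a b : V} (ha : a ∈ S)
    (hb : b ∈ S) : ed a b ∈ sp ⊥ L := by
  by_contra hn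
  obtain ⟨x, h1, h2⟩ := exists_sep hn
  rw [lab_ed] at h2
  have h3 : x a ≠ x b := by
    intro h3; rw [h3, CharTwo.add_self_eq_zero] at h2; exact h2 rfl
  have h4 := h x a ha b hb h3
  rw [cut_eq_zero (fun g hg => h1 g (mem_sp hg))] at h4
  omega

lemma TwoEC.bridge {S : Finset V} {L : Multiset (V → ZMod 2)} {a b : V}
    (h : TwoEC S (ed a b ::ₘ L)) (ha : a ∈ S) (hb : b ∈ S) : ed a b ∈ sp ⊥ L := by
  by_contra hn
  obtain ⟨x, h1, h2⟩ := exists_sep hn
  rw [lab_ed] at h2
  have h3 : x a ≠ x b := by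
    intro h3; rw [h3, CharTwo.add_self_eq_zero] at h2; exact h2 rfl
  have h4 := h x a ha b hb h3
  rw [cut_cons, cut_eq_zero (fun g hg => h1 g (mem_sp hg))] at h4
  split_ifs at h4 <;> omega

/-- the graph form of the rung lemma -/
lemma rung_graph {u v a b c d : V} {M : Multiset (V → ZMod 2)} (huv : u ≠ v) (hau : a ≠ u)
    (hav : a ≠ v) (hbu : b ≠ u) (hbv : b ≠ v) (hcu : c ≠ u) (hcv : c ≠ v) (hdu : d ≠ u)
    (hdv : d ≠ v) (hM : ∀ g ∈ M, g u = 0 ∧ g v = 0)
    (hbr : ed u v ∈ sp ⊥ (ed u a ::ₘ ed u b ::ₘ ed v c ::ₘ ed v d ::ₘ M))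
    (hc : ed a c ∈ sp ⊥ (ed a b ::ₘ ed c d ::ₘ M)) :
    Ge (f ⊥ (ed u v ::ₘ ed u a ::ₘ ed u b ::ₘ ed v c ::ₘ ed v d ::ₘ M))
      ((X + 2) * f ⊥ (ed a b ::ₘ ed c d ::ₘ M)) ∧
    (ed a b ∈ sp ⊥ M → ed c d ∈ sp ⊥ M →
      Ge (f ⊥ (ed u v ::ₘ ed u a ::ₘ ed u b ::ₘ ed v c ::ₘ ed v d ::ₘ M))
      ((X + 3) * f ⊥ (ed a b ::ₘ ed c d ::ₘ M))) := by
  have hh : ed u v ∉ (⊥ : Submodule (ZMod 2) (V → ZMod 2)) := by
    rw [mem_bot]
    intro h
    have := congrFun h u
    rw [(ed_eq_one huv).mpr (Or.inl rfl)] at this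
    exact one_ne_zero this
  -- the deletion
  have e2 : f ⊥ (ed u a ::ₘ ed u b ::ₘ ed v c ::ₘ ed v d ::ₘ M) = f ⊥ (ed a b ::ₘ ed c d ::ₘ M) := by
    rw [f_ser, ed_add, Multiset.cons_swap (ed a b), Multiset.cons_swap (ed a b), f_ser, ed_add,
      Multiset.cons_swap]
    · apply notMem_sp_of_dual (LinearMap.proj v)
      · show ed v c v = 1
        exact (ed_eq_one hcv.symm).mpr (Or.inl rfl)
      · intro x hx; rw [mem_bot] at hx; rw [hx, map_zero]
      · intro g hg
        show g v = 0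
        rw [ed_add, Multiset.mem_cons, Multiset.mem_cons] at hg
        rcases hg with rfl | rfl | hg
        · simp [ed_apply, hcv.symm, hdv.symm]
        · simp [ed_apply, hav.symm, hbv.symm]
        · exact (hM g hg).2
    · apply notMem_sp_of_dual (LinearMap.proj u)
      · show ed u a u = 1
        exact (ed_eq_one hau.symm).mpr (Or.inl rfl)
      · intro x hx; rw [mem_bot] at hx; rw [hx, map_zero]
      · intro g hg
        show g u = 0
        rw [ed_add, Multiset.mem_cons, Multiset.mem_cons, Multiset.mem_cons] at hg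
        rcases hg with rfl | rfl | rfl | hg
        · simp [ed_apply, hau.symm, hbu.symm]
        · simp [ed_apply, huv, hcu.symm]
        · simp [ed_apply, huv, hdu.symm]
        · exact (hM g hg).1
  -- the contraction
  have e1 : f (ad ⊥ (ed u v)) (ed u a ::ₘ ed u b ::ₘ ed v c ::ₘ ed v d ::ₘ M) =
      f ⊥ (Q4 (ed u a) (ed a b) (ed a c) (ed c d) + M) := by
    have r1 : ed u b = ed u a + ed a b := (ed_add' u a b).symm
    have r2 : ed u a + ed a c = ed u c := ed_add' u a c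
    have r3 : ed u a + ed a c + ed c d = ed u d := by rw [r2, ed_add']
    have k1 : ∀ w, ed v w + ed u w ∈ ad ⊥ (ed u v) := by
      intro w
      rw [ed_comm v w, ed_comm u w, ed_add, ed_comm v u]
      exact mem_ad_self _ _
    rw [f_congr₃ (w := ed u c) (k1 c), f_congr₄ (w := ed u d) (k1 d), r1, ← r2, ← r3]
    rw [show ed u a ::ₘ (ed u a + ed a b) ::ₘ (ed u a + ed a c) ::ₘ (ed u a + ed a c + ed c d) ::ₘ M
      = Q4 (ed u a) (ed a b) (ed a c) (ed c d) + M by simp [Q4]]
    apply f_ad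
    apply notMem_sp_of_dual (LinearMap.proj v)
    · show ed u v v = 1
      exact (ed_eq_one huv).mpr (Or.inr rfl)
    · intro x hx; rw [mem_bot] at hx; rw [hx, map_zero]
    · intro g hg
      show g v = 0
      unfold Q4 at hg
      rw [← r1, r2, ed_add'] at hg
      simp only [Multiset.cons_add, zero_add, Multiset.mem_cons] at hg
      rcases hg with rfl | rfl | rfl | rfl | hg
      · simp [ed_apply, huv.symm, hav.symm]
      · simp [ed_apply, huv.symm, hbv.symm]
      · simp [ed_apply, huv.symm, hcv.symm]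
      · simp [ed_apply, huv.symm, hdv.symm]
      · exact (hM g hg).2
  rw [f_cons_two hh hbr, e2, e1]
  have q1 : (LinearMap.proj u : (V → ZMod 2) →ₗ[ZMod 2] ZMod 2) (ed u a) = 1 := by
    show ed u a u = 1
    exact (ed_eq_one hau.symm).mpr (Or.inl rfl)
  have q2 : (LinearMap.proj u : (V → ZMod 2) →ₗ[ZMod 2] ZMod 2) (ed a b) = 0 := by
    show ed a b u = 0
    simp [ed_apply, hau.symm, hbu.symm]
  have q3 : (LinearMap.proj u : (V → ZMod 2) →ₗ[ZMod 2] ZMod 2) (ed c d) = 0 := by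
    show ed c d u = 0
    simp [ed_apply, hcu.symm, hdu.symm]
  have q4 : (LinearMap.proj u : (V → ZMod 2) →ₗ[ZMod 2] ZMod 2) (ed a c) = 0 := by
    show ed a c u = 0
    simp [ed_apply, hau.symm, hcu.symm]
  have q5 : ∀ x ∈ (⊥ : Submodule (ZMod 2) (V → ZMod 2)),
      (LinearMap.proj u : (V → ZMod 2) →ₗ[ZMod 2] ZMod 2) x = 0 := by
    intro x hx; rw [mem_bot] at hx; rw [hx, map_zero]
  constructor
  · have := rungW (LinearMap.proj u) q1 q2 q3 q4 M ⊥ q5 (fun g hg => (hM g hg).1) hc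
    refine (this.add (Ge.refl _)).trans (Ge.of_eq (by ring))
  · intro h1 h2
    have hc' : ed a c ∈ sp ⊥ M := by
      rwa [sp_cons_of_mem (by rw [sp_cons_of_mem h2]; exact h1), sp_cons_of_mem h2] at hc
    have := rungS (LinearMap.proj u) q1 q2 q3 q4 _ M ⊥ rfl q5 (fun g hg => (hM g hg).1) h1 h2 hc'
    refine (this.add (Ge.refl _)).trans (Ge.of_eq (by ring))

end Pool.Agent.R21.FP
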