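import Pool.Agent.R21.FP.Thm

/-!
# The link with the flow polynomial
-/

set_option autoImplicit false
set_option linter.unusedSectionVars false

open Submodule Module Polynomial

namespace Pool.Agent.R21.FP

variable {V : Type} [Fintype V] [DecidableEq V]

/-- the vector of an edge -/
def vec (e : Sym2 V) : V → ZMod 2 := Sym2.lift ⟨ed, ed_comm⟩ e

lemma vec_mk (a b : V) : vec s(a, b) = ed a b := rfl

lemma vec_eq_one {e : Sym2 V} (he : ¬ e.IsDiag) (s : V) : vec e s = 1 ↔ s ∈ e := by
  induction e using Sym2.ind with
  | _ a b =>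
    rw [Sym2.mk_isDiag_iff] at he
    rw [vec_mk, ed_eq_one he, Sym2.mem_iff]

lemma vec_inj {e e' : Sym2 V} (he : ¬ e.IsDiag) (he' : ¬ e'.IsDiag) (h : vec e = vec e') : e = e' := by
  apply Sym2.ext
  intro s
  rw [← vec_eq_one he, ← vec_eq_one he', h]

/-- number of the connected components of the spanning subgraph with the edges in `Z` -/
noncomputable def cc (Z : Finset (Sym2 V)) : ℕ :=
  Nat.card (SimpleGraph.fromEdgeSet (Z : Set (Sym2 V))).ConnectedComponent

lemma finrank_ker {Z : Finset (Sym2 V)} (hZ : ∀ e ∈ Z, ¬ e.IsDiag) :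
    finrank (ZMod 2) (LinearMap.ker (Matrix.mulVecLin
      (Matrix.of (fun (e : Z) (v : V) => vec (e : Sym2 V) v)))) = cc Z := by
  classical
  set H := SimpleGraph.fromEdgeSet (Z : Set (Sym2 V)) with hH
  let Φ : (H.ConnectedComponent → ZMod 2) →ₗ[ZMod 2] (V → ZMod 2) :=
    LinearMap.funLeft (ZMod 2) (ZMod 2) H.connectedComponentMk
  have hΦ : ∀ c v, Φ c v = c (H.connectedComponentMk v) := fun c v => rfl
  have hinj : Function.Injective Φ := by
    intro c c' h
    funext C
    induction C using SimpleGraph.ConnectedComponent.ind with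
    | _ v =>
      have := congrFun h v
      rwa [hΦ, hΦ] at this
  have hmul : ∀ (x : V → ZMod 2) (e : Z), Matrix.mulVecLin
      (Matrix.of (fun (e : Z) (v : V) => vec (e : Sym2 V) v)) x e = lab x (vec (e : Sym2 V)) := by
    intro x e
    rw [Matrix.mulVecLin_apply, Matrix.mulVec, dotProduct]
    show ∑ v, vec (e : Sym2 V) v * x v = ∑ v, x v * vec (e : Sym2 V) v
    apply Finset.sum_congr rfl
    intro v _; ring
  have hrange : LinearMap.ker (Matrix.mulVecLin
      (Matrix.of (fun (e : Z) (v : V) => vec (e : Sym2 V) v))) = LinearMap.range Φ := by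
    ext x
    rw [LinearMap.mem_ker, LinearMap.mem_range]
    constructor
    · intro h
      have h1 : ∀ a b, H.Adj a b → x a = x b := by
        intro a b hab
        rw [hH, SimpleGraph.fromEdgeSet_adj] at hab
        have h2 := congrFun h ⟨s(a, b), hab.1⟩
        rw [hmul, vec_mk, lab_ed] at h2
        have h2' : x a + x b = 0 := h2
        by_contra h3
        have h4 := ind_ne h3
        rw [h2'] at h4
        exact absurd h4 (by decide)
      have h2 : ∀ a b, H.Reachable a b → x a = x b := by
        rintro a b ⟨p⟩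
        induction p with
        | nil => rfl
        | cons hadj p ih => exact (h1 _ _ hadj).trans ih
      refine ⟨fun C => C.lift x (fun v w p _ => h2 v w ⟨p⟩), ?_⟩
      funext v
      rw [hΦ]
      rfl
    · rintro ⟨c, rfl⟩
      funext e
      rw [hmul]
      obtain ⟨e, he⟩ := e
      have hd := hZ e he
      induction e using Sym2.ind with
      | _ a b =>
        rw [Sym2.mk_isDiag_iff] at hd
        show lab (Φ c) (vec s(a, b)) = 0
        rw [vec_mk, lab_ed, hΦ, hΦ]
        have : H.connectedComponentMk a = H.connectedComponentMk b := by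
          apply SimpleGraph.ConnectedComponent.sound
          apply SimpleGraph.Adj.reachable
          rw [hH, SimpleGraph.fromEdgeSet_adj]
          exact ⟨he, hd⟩
        rw [this, CharTwo.add_self_eq_zero]
  rw [hrange, LinearMap.finrank_range_of_inj hinj]
  have : Fintype H.ConnectedComponent := Fintype.ofFinite _
  rw [Module.finrank_fintype_fun_eq_card, cc, Nat.card_eq_fintype_card]

/-- rank plus number of components -/
lemma rk_add_cc {Z : Finset (Sym2 V)} (hZ : ∀ e ∈ Z, ¬ e.IsDiag) :
    rk ⊥ (Z.val.map vec) + cc Z = Fintype.card V := by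
  have h1 := finrank_ker hZ
  have h2 := LinearMap.finrank_range_add_finrank_ker (Matrix.mulVecLin
      (Matrix.of (fun (e : Z) (v : V) => vec (e : Sym2 V) v)))
  rw [Module.finrank_fintype_fun_eq_card, h1] at h2
  have h3 := Matrix.rank_eq_finrank_span_row (Matrix.of (fun (e : Z) (v : V) => vec (e : Sym2 V) v))
  have h4 : rk ⊥ (Z.val.map vec) = (Matrix.of (fun (e : Z) (v : V) => vec (e : Sym2 V) v)).rank := by
    have h5 : {z | z ∈ Z.val.map vec} =
        Set.range (Matrix.of (fun (e : Z) (v : V) => vec (e : Sym2 V) v)).row := by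
      ext g
      constructor
      · intro hg
        obtain ⟨e, he, rfl⟩ := Multiset.mem_map.mp hg
        exact ⟨⟨e, he⟩, rfl⟩
      · rintro ⟨⟨e, he⟩, rfl⟩
        exact Multiset.mem_map.mpr ⟨e, he, rfl⟩
    rw [h3, rk, sp, bot_sup_eq, h5]
  rw [h4]
  exact h2

/-- sums over the subsets -/
lemma sum_powerset_map (E : Finset (Sym2 V)) (φ : Multiset (V → ZMod 2) → ℤ[X]) :
    ((E.val.map vec).powerset.map φ).sum = ∑ Z ∈ E.powerset, φ (Z.val.map vec) := by
  classical
  induction E using Finset.induction_on generalizing φ with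
  | empty => simp
  | insert e E he ih =>
    rw [Finset.sum_powerset_insert he, Finset.insert_val_of_notMem he, Multiset.map_cons,
      Multiset.powerset_cons, Multiset.map_add, Multiset.sum_add, Multiset.map_map, ih φ,
      ih (φ ∘ Multiset.cons (vec e))]
    congr 1
    apply Finset.sum_congr rfl
    intro Z hZ
    have heZ : e ∉ Z := fun h => he (Finset.mem_powerset.mp hZ h)
    rw [Finset.insert_val_of_notMem heZ, Multiset.map_cons]
    rfl

end Pool.Agent.R21.FP
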