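import Pool.Agent.R21.FP.Alg

/-!
# Coefficientwise inequalities, the rung lemma
-/

set_option autoImplicit false
set_option linter.unusedSectionVars false

open Submodule Module Polynomial

namespace Pool.Agent.R21.FP

/-- nonnegative coefficients -/
def Pos (P : ℤ[X]) : Prop := ∀ i, 0 ≤ P.coeff i

/-- coefficientwise inequality `P ≥ Q` -/
def Ge (P Q : ℤ[X]) : Prop := Pos (P - Q)

lemma Pos.add {P Q : ℤ[X]} (hP : Pos P) (hQ : Pos Q) : Pos (P + Q) := fun i => by
  rw [coeff_add]; exact add_nonneg (hP i) (hQ i)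

lemma Pos.mul {P Q : ℤ[X]} (hP : Pos P) (hQ : Pos Q) : Pos (P * Q) := fun i => by
  rw [coeff_mul]; exact Finset.sum_nonneg (fun x _ => mul_nonneg (hP _) (hQ _))

lemma Pos.one : Pos 1 := fun i => by
  rw [coeff_one]; split_ifs <;> simp

lemma Pos.zero : Pos 0 := fun i => by simp

lemma Pos.varX : Pos X := fun i => by
  rw [coeff_X]; split_ifs <;> simp

lemma Pos.nat (n : ℕ) : Pos ((n : ℤ[X])) := fun i => by
  rw [coeff_natCast_ite]; split_ifs <;> simp

lemma Pos.pow {P : ℤ[X]} (hP : Pos P) (n : ℕ) : Pos (P ^ n) := by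
  induction n with
  | zero => rw [pow_zero]; exact Pos.one
  | succ n ih => rw [pow_succ]; exact ih.mul hP

lemma Pos.y : Pos (X + 1) := Pos.varX.add Pos.one

lemma Pos.y1 : Pos (X + 2) := Pos.varX.add (Pos.nat 2)

lemma Pos.y2 : Pos (X + 3) := Pos.varX.add (Pos.nat 3)

lemma Ge.refl (P : ℤ[X]) : Ge P P := by unfold Ge; rw [sub_self]; exact Pos.zero

lemma Ge.of_eq {P Q : ℤ[X]} (h : P = Q) : Ge P Q := h ▸ Ge.refl P

lemma Ge.trans {P Q R : ℤ[X]} (h : Ge P Q) (h' : Ge Q R) : Ge P R := by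
  unfold Ge at *; rw [← sub_add_sub_cancel P Q R]; exact h.add h'

lemma Ge.add {P Q P' Q' : ℤ[X]} (h : Ge P Q) (h' : Ge P' Q') : Ge (P + P') (Q + Q') := by
  unfold Ge at *; rw [add_sub_add_comm]; exact h.add h'

lemma Ge.mul_left {P Q R : ℤ[X]} (hR : Pos R) (h : Ge P Q) : Ge (R * P) (R * Q) := by
  unfold Ge at *; rw [← mul_sub]; exact hR.mul h

lemma Ge.mul_right {P Q R : ℤ[X]} (hR : Pos R) (h : Ge P Q) : Ge (P * R) (Q * R) := by
  rw [mul_comm P, mul_comm Q]; exact Ge.mul_left hR h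

lemma Ge.of_add {P Q R : ℤ[X]} (hR : Pos R) (h : P = Q + R) : Ge P Q := by
  unfold Ge; rw [h, add_sub_cancel_left]; exact hR

lemma Pos.ge {P : ℤ[X]} (h : Pos P) : Ge P 0 := by unfold Ge; rwa [sub_zero]

lemma Ge.add_pos {P Q R : ℤ[X]} (h : Ge P Q) (hR : Pos R) : Ge (P + R) Q := by
  unfold Ge at *; rw [add_sub_right_comm]; exact h.add hR

variable {E : Type} [AddCommGroup E] [Module (ZMod 2) E] [FiniteDimensional (ZMod 2) E]

/-- R5 -/
lemma f_pos (U : Submodule (ZMod 2) E) (L : Multiset E) : Pos (f U L) := by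
  induction L using Multiset.induction_on generalizing U with
  | empty => rw [f_zero]; exact Pos.one
  | cons v L ih =>
    by_cases h : v ∈ U
    · rw [f_cons_mem h]; exact Pos.y.mul (ih U)
    · by_cases h' : v ∈ sp U L
      · rw [f_cons_two h h']; exact (ih _).add (ih _)
      · rw [f_cons_zero h']; exact Pos.zero

/-- series reduction -/
lemma f_ser {U : Submodule (ZMod 2) E} {a b : E} {L : Multiset E}
    (h : a ∉ sp U ((a + b) ::ₘ L)) : f U (a ::ₘ b ::ₘ L) = f U ((a + b) ::ₘ L) := by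
  have haU : a ∉ U := fun h1 => h (le_sp _ _ h1)
  by_cases h1 : a ∈ sp U (b ::ₘ L)
  · have hb : b ∉ sp U L := by
      intro hb
      rw [sp_cons, ad_of_mem hb] at h1
      exact h (by rw [sp_cons]; exact le_ad _ _ h1)
    rw [f_cons_two haU h1, f_cons_zero hb, add_zero]
    rw [f_congr (v := b) (w := a + b) (by
      rw [add_comm a b, ← add_assoc, ZModModule.add_self, zero_add]; exact mem_ad_self U a)]
    exact f_ad h
  · rw [f_cons_zero h1]
    symm
    apply f_cons_zero
    intro h2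
    apply h1
    rw [sp_cons, mem_ad]
    exact Or.inr h2

/-- independence of a vector on which a functional does not vanish -/
lemma notMem_sp_of_dual (φ : E →ₗ[ZMod 2] ZMod 2) {U : Submodule (ZMod 2) E} {L : Multiset E}
    {p : E} (hp : φ p = 1) (hU : ∀ u ∈ U, φ u = 0) (hL : ∀ g ∈ L, φ g = 0) : p ∉ sp U L := by
  intro h
  have h1 : sp U L ≤ LinearMap.ker φ := sup_le (fun u hu => hU u hu) (span_le.mpr (fun g hg => hL g hg))
  have h2 : φ p = 0 := h1 h
  rw [hp] at h2
  exact one_ne_zero h2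

/-- the four edges -/
def Q4 (p e₁ c e₂ : E) : Multiset E := p ::ₘ (p + e₁) ::ₘ (p + c) ::ₘ (p + c + e₂) ::ₘ 0

lemma f_two {U : Submodule (ZMod 2) E} {v : E} (h : v ∉ U) : f U (v ::ₘ v ::ₘ 0) = X + 1 := by
  rw [f_cons_two h (by rw [sp_cons, sp_zero]; exact mem_ad_self _ _), f_cons_mem (mem_ad_self _ _),
    f_zero, f_cons_zero (by rw [sp_zero]; exact h)]
  ring

lemma f_three {U : Submodule (ZMod 2) E} {v : E} (h : v ∉ U) :
    f U (v ::ₘ v ::ₘ v ::ₘ 0) = (X + 1) ^ 2 + (X + 1) := by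
  rw [f_cons_two h (by rw [sp_cons]; exact mem_ad_self _ _), f_cons_mem (mem_ad_self _ _),
    f_cons_mem (mem_ad_self _ _), f_zero, f_two h]
  ring

lemma f_four {U : Submodule (ZMod 2) E} {v : E} (h : v ∉ U) :
    f U (v ::ₘ v ::ₘ v ::ₘ v ::ₘ 0) = (X + 1) ^ 3 + (X + 1) ^ 2 + (X + 1) := by
  rw [f_cons_two h (by rw [sp_cons]; exact mem_ad_self _ _), f_cons_mem (mem_ad_self _ _),
    f_cons_mem (mem_ad_self _ _), f_cons_mem (mem_ad_self _ _), f_zero, f_three h]
  ring

/-- `p, p, p + e, p + e` -/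
lemma f_pp {U : Submodule (ZMod 2) E} {p e : E} (hp : p ∉ ad U e) (he : e ∉ U) :
    f U (p ::ₘ p ::ₘ (p + e) ::ₘ (p + e) ::ₘ 0) = (X + 1) ^ 2 := by
  have hpU : p ∉ U := fun h => hp (le_ad _ _ h)
  have hpe : p + e ∉ U := fun h => hp (mem_ad.mpr (Or.inr h))
  rw [f_cons_two hpU (by rw [sp_cons]; exact mem_ad_self _ _), f_cons_mem (mem_ad_self _ _)]
  have h1 : p ∉ sp U ((p + e) ::ₘ (p + e) ::ₘ 0) := by
    rw [sp_cons, sp_cons, sp_zero, ad_of_mem (mem_ad_self _ _), mem_ad]
    rintro (h | h)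
    · exact hpU h
    · rw [← add_assoc, ZModModule.add_self, zero_add] at h
      exact he h
  rw [f_cons_zero h1, add_zero, f_two]
  · ring
  · rw [mem_ad]
    rintro (h | h)
    · exact hpe h
    · rw [add_right_comm, ZModModule.add_self, zero_add] at h
      exact he h

lemma f_congr₂ {U : Submodule (ZMod 2) E} {v w : E} (h : v + w ∈ U) (a : E) (L : Multiset E) :
    f U (a ::ₘ v ::ₘ L) = f U (a ::ₘ w ::ₘ L) := by
  rw [Multiset.cons_swap a v, f_congr h, Multiset.cons_swap w a]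

lemma f_congr₃ {U : Submodule (ZMod 2) E} {v w : E} (h : v + w ∈ U) (a b : E) (L : Multiset E) :
    f U (a ::ₘ b ::ₘ v ::ₘ L) = f U (a ::ₘ b ::ₘ w ::ₘ L) := by
  rw [Multiset.cons_swap b v, f_congr₂ h, Multiset.cons_swap w b]

lemma f_congr₄ {U : Submodule (ZMod 2) E} {v w : E} (h : v + w ∈ U) (a b c : E) (L : Multiset E) :
    f U (a ::ₘ b ::ₘ c ::ₘ v ::ₘ L) = f U (a ::ₘ b ::ₘ c ::ₘ w ::ₘ L) := by
  rw [Multiset.cons_swap c v, f_congr₃ h, Multiset.cons_swap w c]

lemma rot (a b g : E) (L : Multiset E) : a ::ₘ b ::ₘ g ::ₘ L = g ::ₘ a ::ₘ b ::ₘ L := by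
  rw [Multiset.cons_swap b g, Multiset.cons_swap a g]

lemma sp_cons_comm (U : Submodule (ZMod 2) E) (g : E) (L : Multiset E) :
    sp U (g ::ₘ L) = sp (ad U g) L := by rw [sp_cons, sp_ad]

lemma sp_cons_of_mem {U : Submodule (ZMod 2) E} {g : E} {L : Multiset E} (h : g ∈ sp U L) :
    sp U (g ::ₘ L) = sp U L := by rw [sp_cons, ad_of_mem h]

lemma e_mem_Q4 (U : Submodule (ZMod 2) E) (p e₁ c e₂ : E) (L : Multiset E) :
    e₁ ∈ sp U (Q4 p e₁ c e₂ + L) ∧ e₂ ∈ sp U (Q4 p e₁ c e₂ + L) := by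
  have h1 : p ∈ sp U (Q4 p e₁ c e₂ + L) := mem_sp (by simp [Q4])
  have h2 : p + e₁ ∈ sp U (Q4 p e₁ c e₂ + L) := mem_sp (by simp [Q4])
  have h3 : p + c ∈ sp U (Q4 p e₁ c e₂ + L) := mem_sp (by simp [Q4])
  have h4 : p + c + e₂ ∈ sp U (Q4 p e₁ c e₂ + L) := mem_sp (by simp [Q4])
  constructor
  · have := add_mem h1 h2
    rwa [← add_assoc, ZModModule.add_self, zero_add] at this
  · have := add_mem h3 h4
    rwa [← add_assoc, ZModModule.add_self, zero_add] at this

lemma sp_Q4 (U : Submodule (ZMod 2) E) (p e₁ c e₂ : E) (L : Multiset E) :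
    sp U (e₁ ::ₘ e₂ ::ₘ L) ≤ sp U (Q4 p e₁ c e₂ + L) := by
  apply sp_mono (le_sp _ _)
  intro v hv
  rw [Multiset.mem_cons, Multiset.mem_cons] at hv
  rcases hv with rfl | rfl | hv
  · exact (e_mem_Q4 U p v c e₂ L).1
  · exact (e_mem_Q4 U p e₁ c v L).2
  · exact mem_sp (Multiset.mem_add.mpr (Or.inr hv))

lemma ad_dual (φ : E →ₗ[ZMod 2] ZMod 2) {U : Submodule (ZMod 2) E} {g : E}
    (hU : ∀ u ∈ U, φ u = 0) (hg : φ g = 0) : ∀ u ∈ ad U g, φ u = 0 := by
  intro u hu
  rw [mem_ad] at hu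
  rcases hu with h | h
  · exact hU u h
  · have := hU _ h
    rwa [map_add, hg, add_zero] at this

section Rung

variable (φ : E →ₗ[ZMod 2] ZMod 2) {p e₁ c e₂ : E} (hp : φ p = 1) (h1 : φ e₁ = 0) (h2 : φ e₂ = 0)
  (hc : φ c = 0)

include hp h1 in
/-- all four edges are parallel to `p`, or two classes -/
lemma f_Q4_base {U : Submodule (ZMod 2) E} (hU : ∀ u ∈ U, φ u = 0) :
    (e₁ ∈ U → e₂ ∈ U → c ∈ U →
      f U (Q4 p e₁ c e₂) = (X + 1) ^ 3 + (X + 1) ^ 2 + (X + 1)) ∧
    (e₁ ∉ U → e₁ + e₂ ∈ U → c ∈ ad U e₁ → f U (Q4 p e₁ c e₂) = (X + 1) ^ 2) := by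
  have hpU : p ∉ U := fun h => by
    have := hU p h; rw [hp] at this; exact one_ne_zero this
  have hpe : p ∉ ad U e₁ := fun h => by
    have := ad_dual φ hU h1 p h; rw [hp] at this; exact one_ne_zero this
  have t1 : ∀ x : E, p + x + p = x := fun x => by
    rw [add_comm p x, add_assoc, ZModModule.add_self, add_zero]
  constructor
  · intro k1 k2 k3
    unfold Q4
    rw [f_congr₂ (w := p) (by rw [t1]; exact k1), f_congr₃ (w := p) (by rw [t1]; exact k3),
      f_congr₄ (w := p) (by rw [add_assoc p c, t1]; exact add_mem k3 k2)]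
    exact f_four hpU
  · intro k1 k2 k3
    unfold Q4
    rw [mem_ad] at k3
    rcases k3 with k3 | k3
    · rw [f_congr₃ (v := p + c) (w := p) (by rw [t1]; exact k3),
        f_congr₄ (v := p + c + e₂) (w := p + e₁) (by
          have : p + c + e₂ + (p + e₁) = c + (e₁ + e₂) := by
            calc p + c + e₂ + (p + e₁) = (p + p) + (c + (e₁ + e₂)) := by abel
              _ = _ := by rw [ZModModule.add_self, zero_add]
          rw [this]; exact add_mem k3 k2),
        Multiset.cons_swap (p + e₁) p]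
      exact f_pp hpe k1
    · rw [f_congr₃ (v := p + c) (w := p + e₁) (by
          have : p + c + (p + e₁) = c + e₁ := by
            calc p + c + (p + e₁) = (p + p) + (c + e₁) := by abel
              _ = _ := by rw [ZModModule.add_self, zero_add]
          rw [this]; exact k3),
        f_congr₄ (v := p + c + e₂) (w := p) (by
          have : p + c + e₂ + p = (c + e₁) + (e₁ + e₂) := by
            calc p + c + e₂ + p = (p + p) + (c + e₂) + 0 := by abel
              _ = (c + e₂) + (e₁ + e₁) := by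
                rw [ZModModule.add_self, zero_add, ZModModule.add_self]
              _ = _ := by abel
          rw [this]; exact add_mem k3 k2),
        rot p (p + e₁) (p + e₁)]
      rw [show (p + e₁) ::ₘ p ::ₘ (p + e₁) ::ₘ p ::ₘ 0 = p ::ₘ p ::ₘ (p + e₁) ::ₘ (p + e₁) ::ₘ 0 by
        rw [Multiset.cons_swap (p + e₁) p, Multiset.cons_swap (p + e₁) p 0,
          Multiset.cons_swap (p + e₁) p]]
      exact f_pp hpe k1

include hp h1 h2 hc in
/-- the weak form -/
lemma rungW (L : Multiset E) : ∀ U : Submodule (ZMod 2) E, (∀ u ∈ U, φ u = 0) →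
    (∀ g ∈ L, φ g = 0) → c ∈ sp U (e₁ ::ₘ e₂ ::ₘ L) →
    Ge (f U (Q4 p e₁ c e₂ + L)) ((X + 1) * f U (e₁ ::ₘ e₂ ::ₘ L)) := by
  induction L using Multiset.induction_on with
  | empty =>
    intro U hU _ hcs
    rw [add_zero]
    have hb := f_Q4_base (e₂ := e₂) (c := c) φ hp h1 hU
    rw [sp_cons, sp_cons, sp_zero] at hcs
    by_cases k1 : e₁ ∈ U
    · by_cases k2 : e₂ ∈ U
      · have k3 : c ∈ U := by rwa [ad_of_mem k2, ad_of_mem k1] at hcs
        rw [hb.1 k1 k2 k3, f_cons_mem k1, f_cons_mem k2, f_zero]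
        apply Ge.of_add (R := (X + 1) ^ 2 + (X + 1)) ((Pos.y.pow 2).add Pos.y)
        ring
      · rw [f_cons_mem k1, f_cons_zero (by rw [sp_zero]; exact k2), mul_zero, mul_zero]
        exact (f_pos _ _).ge
    · by_cases k2 : e₁ ∈ ad U e₂
      · have k3 : e₁ + e₂ ∈ U := (mem_ad.mp k2).resolve_left k1
        have k4 : ad (ad U e₂) e₁ = ad U e₁ := by
          rw [ad_of_mem k2]
          ext x
          rw [mem_ad, mem_ad]
          have s1 : x + e₁ + (e₁ + e₂) = x + e₂ := by
            rw [add_assoc, ← add_assoc e₁, ZModModule.add_self, zero_add]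
          have s2 : x + e₂ + (e₁ + e₂) = x + e₁ := by
            rw [add_comm e₁ e₂, add_assoc, ← add_assoc e₂, ZModModule.add_self, zero_add]
          constructor
          · rintro (h | h)
            · exact Or.inl h
            · right; rw [← s2]; exact add_mem h k3
          · rintro (h | h)
            · exact Or.inl h
            · right; rw [← s1]; exact add_mem h k3
        rw [k4] at hcs
        rw [hb.2 k1 k3 hcs, f_congr₂ (v := e₂) (w := e₁) (by rw [add_comm]; exact k3), f_two k1]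
        apply Ge.of_eq
        ring
      · rw [f_cons_zero (by rw [sp_cons, sp_zero]; exact k2), mul_zero]
        exact (f_pos _ _).ge
  | cons g L ih =>
    intro U hU hL hcs
    have hg : φ g = 0 := hL g (Multiset.mem_cons_self g L)
    have hL' : ∀ g ∈ L, φ g = 0 := fun x hx => hL x (Multiset.mem_cons_of_mem hx)
    rw [Multiset.add_cons, rot]
    rw [rot] at hcs
    by_cases k1 : g ∈ U
    · rw [sp_cons, ad_of_mem (le_sp _ _ k1)] at hcs
      rw [f_cons_mem k1, f_cons_mem k1, ← mul_assoc, mul_comm (X + 1) (X + 1), mul_assoc]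
      exact Ge.mul_left Pos.y (ih U hU hL' hcs)
    · by_cases k2 : g ∈ sp U (e₁ ::ₘ e₂ ::ₘ L)
      · have k3 : g ∈ sp U (Q4 p e₁ c e₂ + L) := sp_Q4 U p e₁ c e₂ L k2
        rw [f_cons_two k1 k2, f_cons_two k1 k3, mul_add]
        rw [sp_cons_of_mem k2] at hcs
        apply Ge.add
        · apply ih _ (ad_dual φ hU hg) hL'
          rw [← sp_cons_comm]
          rw [sp_cons]
          exact le_ad _ _ hcs
        · exact ih U hU hL' hcs
      · rw [f_cons_zero k2, mul_zero]
        exact (f_pos _ _).ge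

include hp h1 h2 hc in
/-- the strong form -/
lemma rungS (n : ℕ) : ∀ (L : Multiset E) (U : Submodule (ZMod 2) E), L.card = n →
    (∀ u ∈ U, φ u = 0) → (∀ g ∈ L, φ g = 0) → e₁ ∈ sp U L → e₂ ∈ sp U L →
    c ∈ sp U L → Ge (f U (Q4 p e₁ c e₂ + L)) ((X + 2) * f U (e₁ ::ₘ e₂ ::ₘ L)) := by
  induction n with
  | zero =>
    intro L U hn hU _ he₁ he₂ hcs
    rw [Multiset.card_eq_zero] at hn
    subst hn
    rw [sp_zero] at he₁ he₂ hcs
    rw [add_zero, (f_Q4_base (e₂ := e₂) (c := c) φ hp h1 hU).1 he₁ he₂ hcs, f_cons_mem he₁,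
      f_cons_mem he₂, f_zero]
    apply Ge.of_add (R := X + 1) Pos.y
    ring
  | succ n ih =>
    intro L U hn hU hL he₁ he₂ hcs
    -- a decomposition with a vanishing deletion is sufficient
    have key : ∀ g L', L = g ::ₘ L' → g ∉ U → f U (e₁ ::ₘ e₂ ::ₘ L') = 0 →
        Ge (f U (Q4 p e₁ c e₂ + L)) ((X + 2) * f U (e₁ ::ₘ e₂ ::ₘ L)) := by
      intro g L' hLg hgU h0
      subst hLg
      have hg : φ g = 0 := hL g (Multiset.mem_cons_self g L')
      have hL' : ∀ g ∈ L', φ g = 0 := fun x hx => hL x (Multiset.mem_cons_of_mem hx)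
      rw [Multiset.add_cons, rot]
      by_cases k2 : g ∈ sp U (e₁ ::ₘ e₂ ::ₘ L')
      · have k3 : g ∈ sp U (Q4 p e₁ c e₂ + L') := sp_Q4 U p e₁ c e₂ L' k2
        rw [f_cons_two hgU k2, f_cons_two hgU k3, h0, add_zero]
        apply Ge.add_pos _ (f_pos _ _)
        rw [sp_cons_comm] at he₁ he₂ hcs
        exact ih L' _ (by rw [Multiset.card_cons] at hn; omega) (ad_dual φ hU hg) hL' he₁ he₂ hcs
      · rw [f_cons_zero k2, mul_zero]
        exact (f_pos _ _).ge
    by_cases hA : ∃ g ∈ L, g ∈ U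
    · obtain ⟨g, hgL, hgU⟩ := hA
      obtain ⟨L', rfl⟩ := Multiset.exists_cons_of_mem hgL
      have hL' : ∀ g ∈ L', φ g = 0 := fun x hx => hL x (Multiset.mem_cons_of_mem hx)
      rw [sp_cons_of_mem (le_sp _ _ hgU)] at he₁ he₂ hcs
      rw [Multiset.add_cons, rot, f_cons_mem hgU, f_cons_mem hgU, ← mul_assoc,
        mul_comm (X + 2) (X + 1), mul_assoc]
      exact Ge.mul_left Pos.y (ih L' U (by rw [Multiset.card_cons] at hn; omega) hU hL' he₁ he₂ hcs)
    by_cases hB : ∃ g L', L = g ::ₘ L' ∧ g ∈ sp U L'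
    · obtain ⟨g, L', rfl, hgs⟩ := hB
      have hgU : g ∉ U := fun h => hA ⟨g, Multiset.mem_cons_self g L', h⟩
      have hg : φ g = 0 := hL g (Multiset.mem_cons_self g L')
      have hL' : ∀ g ∈ L', φ g = 0 := fun x hx => hL x (Multiset.mem_cons_of_mem hx)
      have k2 : g ∈ sp U (e₁ ::ₘ e₂ ::ₘ L') :=
        sp_mono (le_sp _ _) (fun v hv => mem_sp (by simp [hv])) hgs
      have k3 : g ∈ sp U (Q4 p e₁ c e₂ + L') := sp_Q4 U p e₁ c e₂ L' k2
      rw [Multiset.add_cons, rot, f_cons_two hgU k2, f_cons_two hgU k3, mul_add]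
      have hcard : L'.card = n := by rw [Multiset.card_cons] at hn; omega
      apply Ge.add
      · rw [sp_cons_comm] at he₁ he₂ hcs
        exact ih L' _ hcard (ad_dual φ hU hg) hL' he₁ he₂ hcs
      · rw [sp_cons_of_mem hgs] at he₁ he₂ hcs
        exact ih L' U hcard hU hL' he₁ he₂ hcs
    push Not at hA hB
    by_cases hC : ∃ g L', L = g ::ₘ L' ∧ (e₁ ∈ sp U L' ∨ e₂ ∈ sp U L')
    · obtain ⟨g, L', hLg, hor⟩ := hC
      have hgs := hB g L' hLg
      have hgU : g ∉ U := fun h => hgs (le_sp _ _ h)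
      by_cases m1 : e₁ ∈ sp U L'
      · by_cases m2 : e₂ ∈ sp U L'
        · rw [hLg, rot, f_cons_zero (v := g), mul_zero]
          · exact (f_pos _ _).ge
          · rw [sp_cons, sp_cons_of_mem m2, ad_of_mem m1]
            exact hgs
        · apply key g L' hLg hgU
          rw [Multiset.cons_swap]
          apply f_cons_zero
          rw [sp_cons_of_mem m1]
          exact m2
      · have m2 := hor.resolve_left m1
        apply key g L' hLg hgU
        apply f_cons_zero
        rw [sp_cons_of_mem m2]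
        exact m1
    push Not at hC
    -- all coordinates of `e₁`, `e₂` are one
    obtain ⟨g, hgL⟩ := Multiset.card_pos_iff_exists_mem.mp (by omega : 0 < L.card)
    obtain ⟨L', hLg⟩ := Multiset.exists_cons_of_mem hgL
    have hgs := hB g L' hLg
    have hgU : g ∉ U := fun h => hgs (le_sp _ _ h)
    have hCg := hC g L' hLg
    rcases Multiset.empty_or_exists_mem L' with hL'0 | ⟨g', hg'L⟩
    · subst hL'0
      subst hLg
      rw [sp_zero] at hgs hCg
      rw [sp_cons, sp_zero] at he₁ he₂ hcs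
      have a1 : e₁ + g ∈ U := (mem_ad.mp he₁).resolve_left hCg.1
      have a2 : e₂ + g ∈ U := (mem_ad.mp he₂).resolve_left hCg.2
      have a3 : e₁ + e₂ ∈ U := by
        have := add_mem a1 a2
        have e : e₁ + g + (e₂ + g) = e₁ + e₂ := by
          calc e₁ + g + (e₂ + g) = (e₁ + e₂) + (g + g) := by abel
            _ = _ := by rw [ZModModule.add_self, add_zero]
        rwa [e] at this
      have a4 : c ∈ ad U e₁ := by
        rw [mem_ad] at hcs ⊢
        rcases hcs with h | h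
        · exact Or.inl h
        · right
          have := add_mem h a1
          have e : c + g + (e₁ + g) = c + e₁ := by
            calc c + g + (e₁ + g) = (c + e₁) + (g + g) := by abel
              _ = _ := by rw [ZModModule.add_self, add_zero]
          rwa [e] at this
      have hg : φ g = 0 := hL g (Multiset.mem_cons_self g 0)
      have k3 : g ∈ sp U (Q4 p e₁ c e₂ + 0) := by
        have h5 := (e_mem_Q4 U p e₁ c e₂ 0).1
        have h6 := add_mem (le_sp U (Q4 p e₁ c e₂ + 0) a1) h5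
        rwa [add_comm e₁ g, add_assoc, ZModModule.add_self, add_zero g] at h6
      rw [Multiset.add_cons, f_cons_two hgU k3, add_zero,
        (f_Q4_base (e₂ := e₂) (c := c) φ hp h1 (ad_dual φ hU hg)).1 he₁ he₂ hcs,
        (f_Q4_base (e₂ := e₂) (c := c) φ hp h1 hU).2 hCg.1 a3 a4,
        f_congr (v := e₁) (w := g) a1, f_congr₂ (v := e₂) (w := g) a2, f_three hgU]
      apply Ge.of_eq
      ring
    · obtain ⟨L'', hLg'⟩ := Multiset.exists_cons_of_mem hg'L
      subst hLg'
      have hLg2 : L = g' ::ₘ g ::ₘ L'' := by rw [hLg, Multiset.cons_swap]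
      have hgs2 := hB g' _ hLg2
      have hCg2 := hC g' _ hLg2
      apply key g _ hLg hgU
      rw [rot]
      apply f_cons_zero
      rw [hLg, sp_cons, sp_cons] at he₁ he₂
      rw [sp_cons] at hCg hCg2 hgs2
      have b : ∀ e : E, e ∉ ad (sp U L'') g' → e ∉ ad (sp U L'') g →
          e ∈ ad (ad (sp U L'') g') g → e + g + g' ∈ sp U L'' := by
        intro e z1 z2 z3
        have z4 := mem_ad.mp ((mem_ad.mp z3).resolve_left z1)
        rcases z4 with z4 | z4
        · exact absurd (mem_ad.mpr (Or.inr z4)) z2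
        · exact z4
      have b1 := b e₁ hCg.1 hCg2.1 he₁
      have b2 := b e₂ hCg.2 hCg2.2 he₂
      have b3 : e₁ + e₂ ∈ sp U L'' := by
        have := add_mem b1 b2
        have e : e₁ + g + g' + (e₂ + g + g') = e₁ + e₂ := by
          calc e₁ + g + g' + (e₂ + g + g') = (e₁ + e₂) + (g + g) + (g' + g') := by abel
            _ = _ := by rw [ZModModule.add_self, ZModModule.add_self, add_zero, add_zero]
        rwa [e] at this
      have hg'M : g' ∉ sp U L'' := fun h => hgs2 (le_ad _ _ h)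
      rw [sp_cons, sp_cons]
      intro h
      rcases mem_ad.mp h with h | h
      · rcases mem_ad.mp h with h | h
        · exact hg'M h
        · apply hCg.2
          rw [mem_ad, add_comm e₂ g']
          exact Or.inr h
      · rcases mem_ad.mp h with h | h
        · apply hCg.1
          rw [mem_ad, add_comm e₁ g']
          exact Or.inr h
        · apply hg'M
          have := add_mem h b3
          have e : g' + e₁ + e₂ + (e₁ + e₂) = g' := by
            calc g' + e₁ + e₂ + (e₁ + e₂) = g' + (e₁ + e₁) + (e₂ + e₂) := by abel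
              _ = _ := by rw [ZModModule.add_self, ZModModule.add_self, add_zero, add_zero]
          rwa [e] at this

end Rung

end Pool.Agent.R21.FP
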