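import Pool.Agent.R21.FP.Gr

/-!
# Stars of vertices, reductions
-/

set_option autoImplicit false
set_option linter.unusedSectionVars false

open Submodule Module Polynomial

namespace Pool.Agent.R21.FP

variable {V : Type} [Fintype V] [DecidableEq V]

lemma ne_one_iff (x : ZMod 2) : ¬ x = 1 ↔ x = 0 := by
  rcases zm2 x with rfl | rfl <;> simp

lemma split_filter (M : Multiset (V → ZMod 2)) (u : V) : ∃ N M', M = N + M' ∧ N.card = dg u M ∧
    (∀ g ∈ N, g u = 1) ∧ ∀ g ∈ M', g u = 0 := by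
  refine ⟨M.filter (fun g => g u = 1), M.filter (fun g => ¬ g u = 1),
    (Multiset.filter_add_not _ _).symm, ?_, ?_, ?_⟩
  · unfold dg; rw [Multiset.countP_eq_card_filter]
  · intro g hg; exact (Multiset.mem_filter.mp hg).2
  · intro g hg; exact (ne_one_iff _).mp (Multiset.mem_filter.mp hg).2

lemma split1 {M : Multiset (V → ZMod 2)} {u : V} (h : dg u M = 1) :
    ∃ g M', M = g ::ₘ M' ∧ g u = 1 ∧ ∀ g ∈ M', g u = 0 := by
  obtain ⟨N, M', rfl, h2, h3, h4⟩ := split_filter M u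
  rw [h, Multiset.card_eq_one] at h2
  obtain ⟨g, rfl⟩ := h2
  exact ⟨g, M', by simp, h3 g (by simp), h4⟩

lemma split2 {M : Multiset (V → ZMod 2)} {u : V} (h : dg u M = 2) :
    ∃ g₁ g₂ M', M = g₁ ::ₘ g₂ ::ₘ M' ∧ g₁ u = 1 ∧ g₂ u = 1 ∧ ∀ g ∈ M', g u = 0 := by
  obtain ⟨N, M', rfl, h2, h3, h4⟩ := split_filter M u
  rw [h, Multiset.card_eq_two] at h2
  obtain ⟨g₁, g₂, rfl⟩ := h2
  refine ⟨g₁, g₂, M', ?_, h3 g₁ (by simp), h3 g₂ (by simp), h4⟩
  rw [Multiset.insert_eq_cons, Multiset.cons_add, Multiset.singleton_add]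

lemma Cub.edge_at {S : Finset V} {L : Multiset (V → ZMod 2)} (hC : Cub S L) {g : V → ZMod 2}
    (hg : g ∈ L) {u : V} (hu : g u = 1) : ∃ a ∈ S, a ≠ u ∧ g = ed u a := by
  obtain ⟨a, ha, b, hb, hab, rfl⟩ := hC.edge g hg
  rcases (ed_eq_one hab).mp hu with h | h
  · subst h; exact ⟨b, hb, hab.symm, rfl⟩
  · subst h; exact ⟨a, ha, hab, ed_comm _ _⟩

lemma ed_at_left {a b : V} (h : a ≠ b) : ed a b a = 1 := (ed_eq_one h).mpr (Or.inl rfl)
lemma ed_at_right {a b : V} (h : a ≠ b) : ed a b b = 1 := (ed_eq_one h).mpr (Or.inr rfl)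
lemma ed_at_other {a b s : V} (h : s ≠ a) (h' : s ≠ b) : ed a b s = 0 := by
  rw [ed_apply, if_neg h, if_neg h', add_zero]

lemma edge_mem_left {S : Finset V} {L : Multiset (V → ZMod 2)} (hC : Cub S L) {u v : V}
    (huv : u ≠ v) (h : ed u v ∈ L) : u ∈ S ∧ v ∈ S := by
  obtain ⟨a, ha, b, hb, hab, h1⟩ := hC.edge _ h
  have h2 := (ed_eq_one hab).mp (by rw [← h1]; exact ed_at_left huv)
  have h3 := (ed_eq_one hab).mp (by rw [← h1]; exact ed_at_right huv)
  constructor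
  · rcases h2 with rfl | rfl <;> assumption
  · rcases h3 with rfl | rfl <;> assumption

/-- the two stars of an edge of multiplicity one -/
lemma Cub.star2 {S : Finset V} {M₀ : Multiset (V → ZMod 2)} {u v : V} (huv : u ≠ v)
    (hC : Cub S (ed u v ::ₘ M₀)) (hm : ed u v ∉ M₀) :
    ∃ a b c d M, M₀ = ed u a ::ₘ ed u b ::ₘ ed v c ::ₘ ed v d ::ₘ M ∧
      (a ∈ S ∧ a ≠ u ∧ a ≠ v) ∧ (b ∈ S ∧ b ≠ u ∧ b ≠ v) ∧ (c ∈ S ∧ c ≠ u ∧ c ≠ v) ∧
      (d ∈ S ∧ d ≠ u ∧ d ≠ v) ∧ ∀ g ∈ M, g u = 0 ∧ g v = 0 := by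
  obtain ⟨huS, hvS⟩ := edge_mem_left hC huv (Multiset.mem_cons_self _ _)
  have h1 := hC.deg u huS
  rw [dg_cons, if_pos (ed_at_left huv)] at h1
  obtain ⟨g₁, g₂, M₁, rfl, k1, k2, k3⟩ := split2 (M := M₀) (u := u) (by omega)
  obtain ⟨a, haS, hau, rfl⟩ := hC.edge_at (g := g₁) (by simp) k1
  obtain ⟨b, hbS, hbu, rfl⟩ := hC.edge_at (g := g₂) (by simp) k2
  have hav : a ≠ v := by rintro rfl; exact hm (by simp)
  have hbv : b ≠ v := by rintro rfl; exact hm (by simp)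
  have h2 := hC.deg v hvS
  rw [dg_cons, dg_cons, dg_cons, if_pos (ed_at_right huv), ed_at_other huv.symm hav.symm,
    ed_at_other huv.symm hbv.symm] at h2
  simp only [zero_ne_one, if_false, add_zero] at h2
  obtain ⟨g₃, g₄, M, rfl, l1, l2, l3⟩ := split2 (M := M₁) (u := v) (by omega)
  obtain ⟨c, hcS, hcv, rfl⟩ := hC.edge_at (g := g₃) (by simp) l1
  obtain ⟨d, hdS, hdv, rfl⟩ := hC.edge_at (g := g₄) (by simp) l2
  have hcu : c ≠ u := by
    rintro rfl
    have := k3 (ed v c) (by simp)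
    rw [ed_at_right huv.symm] at this
    exact one_ne_zero this
  have hdu : d ≠ u := by
    rintro rfl
    have := k3 (ed v d) (by simp)
    rw [ed_at_right huv.symm] at this
    exact one_ne_zero this
  exact ⟨a, b, c, d, M, rfl, ⟨haS, hau, hav⟩, ⟨hbS, hbu, hbv⟩, ⟨hcS, hcu, hcv⟩, ⟨hdS, hdu, hdv⟩,
    fun g hg => ⟨k3 g (by simp [hg]), l3 g hg⟩⟩

/-- the reduced graph is cubic -/
lemma Cub.red {S : Finset V} {u v a b c d : V} {M : Multiset (V → ZMod 2)}
    (hC : Cub S (ed u v ::ₘ ed u a ::ₘ ed u b ::ₘ ed v c ::ₘ ed v d ::ₘ M)) (huv : u ≠ v)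
    (ha : a ∈ S ∧ a ≠ u ∧ a ≠ v) (hb : b ∈ S ∧ b ≠ u ∧ b ≠ v) (hc : c ∈ S ∧ c ≠ u ∧ c ≠ v)
    (hd : d ∈ S ∧ d ≠ u ∧ d ≠ v) (hM : ∀ g ∈ M, g u = 0 ∧ g v = 0) (hab : a ≠ b) (hcd : c ≠ d) :
    Cub ((S.erase u).erase v) (ed a b ::ₘ ed c d ::ₘ M) := by
  constructor
  · intro g hg
    rw [Multiset.mem_cons, Multiset.mem_cons] at hg
    rcases hg with rfl | rfl | hg
    · exact ⟨a, by simp [ha], b, by simp [hb], hab, rfl⟩
    · exact ⟨c, by simp [hc], d, by simp [hd], hcd, rfl⟩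
    · obtain ⟨s, hs, t, ht, hst, rfl⟩ := hC.edge g (by simp [hg])
      obtain ⟨m1, m2⟩ := hM _ hg
      refine ⟨s, ?_, t, ?_, hst, rfl⟩
      · simp only [Finset.mem_erase]
        refine ⟨?_, ?_, hs⟩
        · rintro rfl; rw [ed_at_left hst] at m2; exact one_ne_zero m2
        · rintro rfl; rw [ed_at_left hst] at m1; exact one_ne_zero m1
      · simp only [Finset.mem_erase]
        refine ⟨?_, ?_, ht⟩
        · rintro rfl; rw [ed_at_right hst] at m2; exact one_ne_zero m2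
        · rintro rfl; rw [ed_at_right hst] at m1; exact one_ne_zero m1
  · intro s hs
    simp only [Finset.mem_erase] at hs
    obtain ⟨hsv, hsu, hsS⟩ := hs
    have h := hC.deg s hsS
    simp only [dg_cons] at h ⊢
    simp only [ed_eq_one huv, ed_eq_one ha.2.1.symm, ed_eq_one hb.2.1.symm, ed_eq_one hc.2.2.symm,
      ed_eq_one hd.2.2.symm, hsu, hsv, false_or, or_false, if_false, add_zero] at h
    simp only [ed_eq_one hab, ed_eq_one hcd]
    rw [← h]
    have e1 : (if s = a ∨ s = b then 1 else 0) = (if s = a then 1 else 0) + if s = b then 1 else 0 := by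
      by_cases h1 : s = a
      · have h2 : s ≠ b := fun h2 => hab (h1.symm.trans h2)
        simp [h1, hab]
      · simp [h1]
    have e2 : (if s = c ∨ s = d then 1 else 0) = (if s = c then 1 else 0) + if s = d then 1 else 0 := by
      by_cases h1 : s = c
      · have h2 : s ≠ d := fun h2 => hcd (h1.symm.trans h2)
        simp [h1, hcd]
      · simp [h1]
    rw [e1, e2]
    ring

lemma lab_congr {x y : V → ZMod 2} {g : V → ZMod 2} (h : ∀ s, g s ≠ 0 → x s = y s) :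
    lab x g = lab y g := by
  show ∑ s, x s * g s = ∑ s, y s * g s
  apply Finset.sum_congr rfl
  intro s _
  by_cases hs : g s = 0
  · rw [hs, mul_zero, mul_zero]
  · rw [h s hs]

lemma cut_congr {x y : V → ZMod 2} {M : Multiset (V → ZMod 2)}
    (h : ∀ g ∈ M, ∀ s, g s ≠ 0 → x s = y s) : cut x M = cut y M := by
  unfold cut
  apply Multiset.countP_congr rfl
  intro g hg
  rw [lab_congr (h g hg)]

/-- if the deletion of the edge is two edge connected, so is the reduction -/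
lemma TwoEC.red {S : Finset V} {u v a b c d : V} {M : Multiset (V → ZMod 2)}
    (hT : TwoEC S (ed u a ::ₘ ed u b ::ₘ ed v c ::ₘ ed v d ::ₘ M)) (huv : u ≠ v)
    (ha : a ∈ S ∧ a ≠ u ∧ a ≠ v) (hb : b ∈ S ∧ b ≠ u ∧ b ≠ v) (hc : c ∈ S ∧ c ≠ u ∧ c ≠ v)
    (hd : d ∈ S ∧ d ≠ u ∧ d ≠ v) (hM : ∀ g ∈ M, g u = 0 ∧ g v = 0) :
    TwoEC ((S.erase u).erase v) (ed a b ::ₘ ed c d ::ₘ M) := by
  intro x s hs t ht hst
  simp only [Finset.mem_erase] at hs ht
  set y : V → ZMod 2 := fun s => if s = u then x a else if s = v then x c else x s with hy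
  have y1 : ∀ s, s ≠ u → s ≠ v → y s = x s := fun s h1 h2 => by simp [hy, h1, h2]
  have yu : y u = x a := by simp [hy]
  have yv : y v = x c := by simp [hy, huv.symm]
  have h := hT y s hs.2.2 t ht.2.2 (by
    rw [y1 s hs.2.1 hs.1, y1 t ht.2.1 ht.1]; exact hst)
  have e : cut y M = cut x M := by
    apply cut_congr
    intro g hg w hw
    apply y1
    · rintro rfl; exact hw (hM g hg).1
    · rintro rfl; exact hw (hM g hg).2
  rw [cut_cons, cut_cons, cut_cons, cut_cons, e] at h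
  simp only [lab_ed, yu, yv, y1 a ha.2.1 ha.2.2, y1 b hb.2.1 hb.2.2, y1 c hc.2.1 hc.2.2,
    y1 d hd.2.1 hd.2.2, CharTwo.add_self_eq_zero, zero_ne_one, if_false, add_zero] at h
  rw [cut_cons, cut_cons, lab_ed, lab_ed]
  omega

end Pool.Agent.R21.FP
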