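import Pool.Agent.R21.FP.Tri

/-!
# The lower bounds
-/

set_option autoImplicit false
set_option linter.unusedSectionVars false

open Submodule Module Polynomial

namespace Pool.Agent.R21.FP

variable {V : Type} [Fintype V] [DecidableEq V]

/-- at most one double edge -/
def Near (L : Multiset (V → ZMod 2)) : Prop :=
  L.Nodup ∨ ∃ g M, L = g ::ₘ g ::ₘ M ∧ (g ::ₘ M).Nodup

lemma near_cons {g : V → ZMod 2} {M : Multiset (V → ZMod 2)} (hM : M.Nodup) : Near (g ::ₘ M) := by
  by_cases h : g ∈ M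
  · obtain ⟨M', rfl⟩ := Multiset.exists_cons_of_mem h
    exact Or.inr ⟨g, M', rfl, hM⟩
  · exact Or.inl (Multiset.nodup_cons.mpr ⟨h, hM⟩)

lemma card_erase2 {S : Finset V} {u v : V} (hu : u ∈ S) (hv : v ∈ S) (huv : u ≠ v) {k : ℕ}
    (hS : S.card = 2 * (k + 1)) : ((S.erase u).erase v).card = 2 * k := by
  rw [Finset.card_erase_of_mem (by simp [hv, huv.symm]), Finset.card_erase_of_mem hu, hS]
  omega

lemma lab_zero_of {x : V → ZMod 2} {g : V → ZMod 2} (h : ∀ s, g s ≠ 0 → x s = 0) :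
    lab x g = 0 := by
  rw [lab_congr (y := 0) h]
  show ∑ s, (0 : V → ZMod 2) s * g s = 0
  simp

lemma ge_M_D (k : ℕ) : Ge ((X + 1) * (X + 2) ^ (k + 1) * (X + 3) ^ 2)
    ((X + 1) * (X + 2) ^ (k + 2) * (X + 3)) := by
  apply Ge.of_add (R := (X + 1) * (X + 2) ^ (k + 1) * (X + 3))
    ((Pos.y.mul (Pos.y1.pow _)).mul Pos.y2)
  ring

/-- reduction of a double edge -/
lemma f_digon {p q a b : V} {M : Multiset (V → ZMod 2)} (hpq : p ≠ q) (hap : a ≠ p) (haq : a ≠ q)
    (hbp : b ≠ p) (hbq : b ≠ q) (hM : ∀ g ∈ M, g p = 0 ∧ g q = 0) :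
    f ⊥ (ed p q ::ₘ ed p q ::ₘ ed p a ::ₘ ed q b ::ₘ M) = (X + 2) * f ⊥ (ed a b ::ₘ M) := by
  have hh : ed p q ∉ (⊥ : Submodule (ZMod 2) (V → ZMod 2)) := by
    rw [mem_bot]
    intro h
    have := congrFun h p
    rw [ed_at_left hpq] at this
    exact one_ne_zero this
  have hbot : ∀ (φ : (V → ZMod 2) →ₗ[ZMod 2] ZMod 2),
      ∀ x ∈ (⊥ : Submodule (ZMod 2) (V → ZMod 2)), φ x = 0 := by
    intro φ x hx; rw [mem_bot] at hx; rw [hx, map_zero]
  have e1 : f (ad ⊥ (ed p q)) (ed p a ::ₘ ed q b ::ₘ M) = f ⊥ (ed a b ::ₘ M) := by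
    rw [f_congr₂ (w := ed p b) (by
      rw [ed_comm q b, ed_comm p b, ed_add, ed_comm q p]; exact mem_ad_self _ _), f_ad, f_ser, ed_add]
    · apply notMem_sp_of_dual (LinearMap.proj p) (ed_at_left hap.symm) (hbot _)
      intro g hg
      show g p = 0
      rw [ed_add, Multiset.mem_cons] at hg
      rcases hg with rfl | hg
      · exact ed_at_other hap.symm hbp.symm
      · exact (hM g hg).1
    · apply notMem_sp_of_dual (LinearMap.proj q) (ed_at_right hpq) (hbot _)
      intro g hg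
      show g q = 0
      rw [Multiset.mem_cons, Multiset.mem_cons] at hg
      rcases hg with rfl | rfl | hg
      · exact ed_at_other hpq.symm haq.symm
      · exact ed_at_other hpq.symm hbq.symm
      · exact (hM g hg).2
  have e2 : f ⊥ (ed p q ::ₘ ed p a ::ₘ ed q b ::ₘ M) = f ⊥ (ed a b ::ₘ M) := by
    rw [f_ser, ed_add, f_ser, ed_add]
    · apply notMem_sp_of_dual (LinearMap.proj q) (ed_at_left haq.symm) (hbot _)
      intro g hg
      show g q = 0
      rw [ed_add, Multiset.mem_cons] at hg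
      rcases hg with rfl | hg
      · exact ed_at_other haq.symm hbq.symm
      · exact (hM g hg).2
    · apply notMem_sp_of_dual (LinearMap.proj p) (ed_at_left hpq) (hbot _)
      intro g hg
      show g p = 0
      rw [ed_add, Multiset.mem_cons, Multiset.mem_cons] at hg
      rcases hg with rfl | rfl | hg
      · exact ed_at_other hpq hap.symm
      · exact ed_at_other hpq hbp.symm
      · exact (hM g hg).1
  rw [f_cons_two hh (mem_sp (by simp)), f_cons_mem (mem_ad_self _ _), e1, e2]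
  ring

/-- consequences of triangle-freeness -/
lemma tf_red {u v a b c d : V} {M : Multiset (V → ZMod 2)} (huv : u ≠ v)
    (hN : (ed u v ::ₘ ed u a ::ₘ ed u b ::ₘ ed v c ::ₘ ed v d ::ₘ M).Nodup)
    (hau : a ≠ u) (hav : a ≠ v) (hbu : b ≠ u) (hbv : b ≠ v) (hcv : c ≠ v) (hdv : d ≠ v)
    (hcu : c ≠ u) (hdu : d ≠ u)
    (htri : ∀ x y z, x ≠ y → x ≠ z → y ≠ z →
      ed x y ∈ ed u v ::ₘ ed u a ::ₘ ed u b ::ₘ ed v c ::ₘ ed v d ::ₘ M →
      ed x z ∈ ed u v ::ₘ ed u a ::ₘ ed u b ::ₘ ed v c ::ₘ ed v d ::ₘ M →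
      ed y z ∉ ed u v ::ₘ ed u a ::ₘ ed u b ::ₘ ed v c ::ₘ ed v d ::ₘ M) :
    a ≠ b ∧ c ≠ d ∧ a ≠ c ∧ a ≠ d ∧ b ≠ c ∧ (ed a b ::ₘ ed c d ::ₘ M).Nodup := by
  have hab : a ≠ b := by rintro rfl; simp at hN
  have hcd : c ≠ d := by rintro rfl; simp at hN
  have hac : a ≠ c := by
    rintro rfl
    exact htri u v a huv hau.symm hav.symm (by simp) (by simp) (by simp)
  have had : a ≠ d := by
    rintro rfl
    exact htri u v a huv hau.symm hav.symm (by simp) (by simp) (by simp)
  have hbc : b ≠ c := by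
    rintro rfl
    exact htri u v b huv hbu.symm hbv.symm (by simp) (by simp) (by simp)
  refine ⟨hab, hcd, hac, had, hbc, ?_⟩
  simp only [Multiset.nodup_cons, Multiset.mem_cons, not_or] at hN ⊢
  refine ⟨⟨?_, ?_⟩, ?_, hN.2.2.2.2.2⟩
  · intro h
    have h1 : ed c d a = 1 := by rw [← h]; exact ed_at_left hab
    rcases (ed_eq_one hcd).mp h1 with h2 | h2
    · exact hac h2
    · exact had h2
  · intro h
    exact htri u a b hau.symm hbu.symm hab (by simp) (by simp) (by simp [h])
  · intro h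
    exact htri v c d hcv.symm hdv.symm hcd (by simp) (by simp) (by simp [h])

lemma TwoEC.congr {S : Finset V} {L L' : Multiset (V → ZMod 2)} (h : TwoEC S L)
    (h' : ∀ x, cut x L = cut x L') : TwoEC S L' := by
  intro x s hs t ht hst
  rw [← h']
  exact h x s hs t ht hst

/-- the statement for simple graphs -/
def SM (V : Type) [Fintype V] [DecidableEq V] (k : ℕ) : Prop :=
  ∀ (S : Finset V) (L : Multiset (V → ZMod 2)), S.card = 2 * (k + 3) → Cub S L → TwoEC S L →
    L.Nodup → Ge (f ⊥ L) ((X + 1) * (X + 2) ^ (k + 1) * (X + 3) ^ 2)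

/-- the statement for graphs with at most one double edge -/
def SD (V : Type) [Fintype V] [DecidableEq V] (k : ℕ) : Prop :=
  ∀ (S : Finset V) (L : Multiset (V → ZMod 2)), S.card = 2 * (k + 2) → Cub S L → TwoEC S L →
    Near L → Ge (f ⊥ L) ((X + 1) * (X + 2) ^ (k + 1) * (X + 3))

/-- the induction step for graphs with a triangle -/
lemma step_tri {k : ℕ} (hD : SD V k) {S : Finset V} {L : Multiset (V → ZMod 2)}
    (hS : S.card = 2 * (k + 3)) (hC : Cub S L) (hT : TwoEC S L) (hN : L.Nodup) {u v z : V}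
    (huv : u ≠ v) (huz : u ≠ z) (hvz : v ≠ z) (h1 : ed u v ∈ L) (h2 : ed u z ∈ L)
    (h3 : ed v z ∈ L) : Ge (f ⊥ L) ((X + 1) * (X + 2) ^ (k + 1) * (X + 3) ^ 2) := by
  obtain ⟨huS, hvS⟩ := edge_mem_left hC huv h1
  have hzS := (edge_mem_left hC huz h2).2
  obtain ⟨M₀, rfl⟩ := Multiset.exists_cons_of_mem h1
  obtain ⟨a₀, b₀, c₀, d₀, M, rfl, ha₀, hb₀, hc₀, hd₀, hM⟩ :=
    hC.star2 huv (Multiset.nodup_cons.mp hN).1
  -- bring `z` to the first place
  obtain ⟨a, ha, e1⟩ : ∃ a, (a ∈ S ∧ a ≠ u ∧ a ≠ v) ∧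
      (ed u a₀ ::ₘ ed u b₀ ::ₘ ed v c₀ ::ₘ ed v d₀ ::ₘ M) =
        (ed u z ::ₘ ed u a ::ₘ ed v c₀ ::ₘ ed v d₀ ::ₘ M) := by
    simp only [Multiset.mem_cons] at h2
    rcases h2 with h | h | h | h | h | h
    · exact absurd (ed_inj h huz) hvz.symm
    · have := ed_inj h huz; subst this; exact ⟨b₀, hb₀, rfl⟩
    · have := ed_inj h huz; subst this; exact ⟨a₀, ha₀, Multiset.cons_swap _ _ _⟩
    · have h5 := congrFun h u
      rw [ed_at_left huz, ed_at_other huv hc₀.2.1.symm] at h5
      exact absurd h5 one_ne_zero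
    · have h5 := congrFun h u
      rw [ed_at_left huz, ed_at_other huv hd₀.2.1.symm] at h5
      exact absurd h5 one_ne_zero
    · have h5 := (hM _ h).1
      rw [ed_at_left huz] at h5
      exact absurd h5 one_ne_zero
  rw [e1] at h3 hC hT hN ⊢
  clear e1 ha₀ hb₀ h1 h2
  obtain ⟨d, hd, e1⟩ : ∃ d, (d ∈ S ∧ d ≠ u ∧ d ≠ v) ∧
      (ed v c₀ ::ₘ ed v d₀ ::ₘ M) = (ed v z ::ₘ ed v d ::ₘ M) := by
    simp only [Multiset.mem_cons] at h3
    rcases h3 with h | h | h | h | h | h
    · have h5 := congrFun h u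
      rw [ed_at_left huv, ed_at_other huv huz] at h5
      exact absurd h5.symm one_ne_zero
    · have h5 := congrFun h u
      rw [ed_at_left huz, ed_at_other huv huz] at h5
      exact absurd h5.symm one_ne_zero
    · have h5 := congrFun h u
      rw [ed_at_left ha.2.1.symm, ed_at_other huv huz] at h5
      exact absurd h5.symm one_ne_zero
    · have := ed_inj h hvz; subst this; exact ⟨d₀, hd₀, rfl⟩
    · have := ed_inj h hvz; subst this; exact ⟨c₀, hc₀, Multiset.cons_swap _ _ _⟩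
    · have h5 := (hM _ h).2
      rw [ed_at_left hvz] at h5
      exact absurd h5 one_ne_zero
  rw [e1] at hC hT hN ⊢
  clear e1 hc₀ hd₀ h3
  have haz : a ≠ z := by rintro rfl; simp at hN
  have hdz : d ≠ z := by rintro rfl; simp at hN
  -- the third edge of `z`
  have h4 := hC.deg z hzS
  rw [dg_ed huv, dg_ed huz, dg_ed ha.2.1.symm, dg_ed hvz, dg_ed hd.2.2.symm] at h4
  simp only [huz.symm, hvz.symm, haz.symm, hdz.symm, or_false, or_true, if_false, if_true] at h4
  obtain ⟨g, M', rfl, k1, k2⟩ := split1 (M := M) (u := z) (by omega)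
  obtain ⟨w, hwS, hwz, rfl⟩ := hC.edge_at (g := g) (by simp) k1
  have hzw := hM (ed z w) (by simp)
  have hwu : w ≠ u := by rintro rfl; rw [ed_at_right hwz.symm] at hzw; exact one_ne_zero hzw.1
  have hwv : w ≠ v := by rintro rfl; rw [ed_at_right hwz.symm] at hzw; exact one_ne_zero hzw.2
  have hM' : ∀ g ∈ M', g u = 0 ∧ g v = 0 := fun g hg => hM g (by simp [hg])
  have hM'' : ∀ g ∈ M', g u = 0 ∧ g v = 0 ∧ g z = 0 :=
    fun g hg => ⟨(hM' g hg).1, (hM' g hg).2, k2 g hg⟩
  have hdel := tri_del hT huS hvS huv huz hvz ha hd ⟨hwu, hwv⟩ hM'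
  have hz' : z ∈ S ∧ z ≠ u ∧ z ≠ v := ⟨hzS, huz.symm, hvz.symm⟩
  have hTred := hdel.red huv hz' ha hz' hd hM
  have hCred := hC.red huv hz' ha hz' hd hM haz.symm hdz.symm
  have hc1 := tri_conn hT hzS ha.1 hwS huz hvz ⟨ha.2.1, ha.2.2, haz⟩ ⟨hd.2.1, hd.2.2, hdz⟩
    ⟨hwu, hwv, hwz⟩ hM''
  have hT' : TwoEC S (ed v u ::ₘ ed v z ::ₘ ed v d ::ₘ ed u z ::ₘ ed u a ::ₘ ed z w ::ₘ M') := by
    apply hT.congr
    intro x
    simp only [cut_ed]
    rw [add_comm (x u) (x v)]
    omega
  have hc2 := tri_conn hT' hzS hd.1 hwS hvz huz ⟨hd.2.2, hd.2.1, hdz⟩ ⟨ha.2.2, ha.2.1, haz⟩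
    ⟨hwv, hwu, hwz⟩ (fun g hg => ⟨(hM'' g hg).2.1, (hM'' g hg).1, (hM'' g hg).2.2⟩)
  have hbr := hT.bridge huS hvS
  have hr := (rung_graph huv huz.symm hvz.symm ha.2.1 ha.2.2 huz.symm hvz.symm hd.2.1 hd.2.2 hM hbr
    (by rw [ed_self]; exact zero_mem _)).2 hc1 hc2
  -- at most one double edge
  have hNM : (ed z w ::ₘ M').Nodup := by
    simp only [Multiset.nodup_cons, Multiset.mem_cons, not_or] at hN ⊢
    exact hN.2.2.2.2.2
  have hzM : ∀ s, s ≠ z → ed z s ∉ M' := by
    intro s hs h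
    have := k2 _ h
    rw [ed_at_left hs.symm] at this
    exact one_ne_zero this
  -- the graph is not `K₄`
  have hnot : ¬ (a = d ∧ d = w) := by
    rintro ⟨rfl, rfl⟩
    have h5 := hC.deg a ha.1
    rw [dg_ed huv, dg_ed huz, dg_ed ha.2.1.symm, dg_ed hvz, dg_ed ha.2.2.symm, dg_ed haz.symm] at h5
    simp only [ha.2.1, ha.2.2, haz, or_false, or_true, if_false, if_true] at h5
    have h6 : ∀ g ∈ M', g a = 0 := by
      intro g hg
      rw [← ne_one_iff]
      intro h7
      have h8 : 0 < dg a M' := Multiset.countP_pos.mpr ⟨g, hg, h7⟩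
      omega
    obtain ⟨s, hs, hsn⟩ : ∃ s ∈ S, s ∉ ({u, v, z, a} : Finset V) := by
      by_contra hno
      push Not at hno
      have h7 := Finset.card_le_card (show S ⊆ {u, v, z, a} from hno)
      have h8 := Finset.card_le_four (a := u) (b := v) (c := z) (d := a)
      omega
    simp only [Finset.mem_insert, Finset.mem_singleton, not_or] at hsn
    set x : V → ZMod 2 := fun s => if s ∈ ({u, v, z, a} : Finset V) then 1 else 0 with hx
    have xu : x u = 1 := by simp [hx]
    have xv : x v = 1 := by simp [hx]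
    have xz : x z = 1 := by simp [hx]
    have xa : x a = 1 := by simp [hx]
    have xs : x s = 0 := by simp [hx, hsn]
    have h9 := hT x u huS s hs (by rw [xu, xs]; exact one_ne_zero)
    have h10 : cut x M' = 0 := by
      apply cut_eq_zero
      intro g hg
      apply lab_zero_of
      intro r hgr
      have hr1 : r ≠ u := by rintro rfl; exact hgr (hM' g hg).1
      have hr2 : r ≠ v := by rintro rfl; exact hgr (hM' g hg).2
      have hr3 : r ≠ z := by rintro rfl; exact hgr (k2 g hg)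
      have hr4 : r ≠ a := by rintro rfl; exact hgr (h6 g hg)
      simp [hx, hr1, hr2, hr3, hr4]
    simp only [cut_ed, h10, xu, xv, xz, xa, ind_eq rfl] at h9
    omega
  have hnear : Near (ed z a ::ₘ ed z d ::ₘ ed z w ::ₘ M') := by
    by_cases h5 : ed z d ∈ ed z w ::ₘ M'
    · have h6 : d = w := by
        rw [Multiset.mem_cons] at h5
        exact ed_inj (h5.resolve_right (hzM d hdz)) hdz.symm
      subst h6
      right
      refine ⟨ed z d, ed z a ::ₘ M', ?_, ?_⟩
      · rw [Multiset.cons_swap (ed z a), Multiset.cons_swap (ed z a)]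
      · rw [Multiset.cons_swap]
        rw [Multiset.nodup_cons]
        refine ⟨?_, hNM⟩
        rw [Multiset.mem_cons, not_or]
        exact ⟨fun h => hnot ⟨ed_inj h haz.symm, rfl⟩, hzM a haz⟩
    · apply near_cons
      exact Multiset.nodup_cons.mpr ⟨h5, hNM⟩
  have hfin := hD _ _ (card_erase2 huS hvS huv hS) hCred hTred hnear
  refine hr.trans ((Ge.mul_left Pos.y2 hfin).trans (Ge.of_eq (by ring)))

/-- the two neighbours reduction of a triangle-free graph with six vertices -/
lemma step_six {S : Finset V} {L : Multiset (V → ZMod 2)}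
    (hS : S.card = 2 * (0 + 3)) (hC : Cub S L) (hT : TwoEC S L) (hN : L.Nodup)
    (htri : ∀ x y z, x ≠ y → x ≠ z → y ≠ z → ed x y ∈ L → ed x z ∈ L → ed y z ∉ L) :
    Ge (f ⊥ L) ((X + 1) * (X + 2) ^ (0 + 1) * (X + 3) ^ 2) := by
  obtain ⟨u, huS⟩ := Finset.card_pos.mp (by omega : 0 < S.card)
  have h1 := hC.deg u huS
  have h2 : ∃ g ∈ L, g u = 1 := by
    by_contra h3
    push Not at h3
    have := dg_eq_zero (s := u) (L := L) (fun g hg => (ne_one_iff _).mp (h3 g hg))
    omega
  obtain ⟨g, hg, hgs⟩ := h2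
  obtain ⟨v, hvS, hvu, rfl⟩ := hC.edge_at hg hgs
  have huv := hvu.symm
  obtain ⟨M₀, rfl⟩ := Multiset.exists_cons_of_mem hg
  obtain ⟨a, b, c, d, M, rfl, ha, hb, hc, hd, hM⟩ := hC.star2 huv (Multiset.nodup_cons.mp hN).1
  obtain ⟨hab, hcd, hac, had, hbc, hN'⟩ := tf_red huv hN ha.2.1 ha.2.2 hb.2.1 hb.2.2 hc.2.2 hd.2.2
    hc.2.1 hd.2.1 htri
  have hC' := hC.red huv ha hb hc hd hM hab hcd
  have hcard : ((S.erase u).erase v).card = 4 := card_erase2 huS hvS huv hS
  have mem' : ∀ s, s ∈ S ∧ s ≠ u ∧ s ≠ v → s ∈ (S.erase u).erase v := by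
    intro s hs; simp [hs]
  have hfin := K4 hC' hN' hcard
  have m1 : ed a c ∈ sp ⊥ M := by
    have h := full4 hC' hN' hcard (mem' a ha) (mem' c hc) hac
    rw [Multiset.mem_cons, Multiset.mem_cons] at h
    rcases h with h | h | h
    · exact absurd (ed_inj h hac) hbc.symm
    · rw [ed_comm c d, ed_comm a c] at h
      have h7 : ed c a = ed c d := by rw [h, ed_comm]
      exact absurd (ed_inj h7 hac.symm) had
    · exact mem_sp h
  have m2 : ed a d ∈ sp ⊥ M := by
    have h := full4 hC' hN' hcard (mem' a ha) (mem' d hd) had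
    rw [Multiset.mem_cons, Multiset.mem_cons] at h
    rcases h with h | h | h
    · have h8 := ed_inj h had
      subst h8
      exfalso
      exact htri u v d huv hb.2.1.symm hb.2.2.symm (by simp) (by simp) (by simp)
    · have h7 : ed d a = ed d c := by rw [ed_comm d a, h, ed_comm]
      exact absurd (ed_inj h7 had.symm) hac
    · exact mem_sp h
  have m3 : ed b c ∈ sp ⊥ M := by
    have h := full4 hC' hN' hcard (mem' b hb) (mem' c hc) hbc
    rw [Multiset.mem_cons, Multiset.mem_cons] at h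
    rcases h with h | h | h
    · have h7 : ed b c = ed b a := by rw [h, ed_comm]
      exact absurd (ed_inj h7 hbc) hac.symm
    · have h7 : ed c b = ed c d := by rw [ed_comm c b, h]
      have h8 := ed_inj h7 hbc.symm
      subst h8
      exfalso
      exact htri u v b huv hb.2.1.symm hb.2.2.symm (by simp) (by simp) (by simp)
    · exact mem_sp h
  have n1 : ed a b ∈ sp ⊥ M := by
    have := add_mem m1 m3
    rwa [ed_comm b c, ed_add'] at this
  have n2 : ed c d ∈ sp ⊥ M := by
    have := add_mem m1 m2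
    rwa [ed_add] at this
  have n3 : ed a c ∈ sp ⊥ (ed a b ::ₘ ed c d ::ₘ M) := by
    rw [sp_cons, sp_cons]
    exact le_ad _ _ (le_ad _ _ m1)
  have hr := (rung_graph huv ha.2.1 ha.2.2 hb.2.1 hb.2.2 hc.2.1 hc.2.2 hd.2.1 hd.2.2 hM
    (hT.bridge huS hvS) n3).2 n1 n2
  refine hr.trans ((Ge.mul_left Pos.y2 hfin).trans (Ge.of_eq (by ring)))

/-- the induction step for triangle-free graphs -/
lemma step_tf {k : ℕ} (hIH : SM V k) {S : Finset V} {L : Multiset (V → ZMod 2)}
    (hS : S.card = 2 * (k + 1 + 3)) (hC : Cub S L) (hT : TwoEC S L) (hN : L.Nodup)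
    (htri : ∀ x y z, x ≠ y → x ≠ z → y ≠ z → ed x y ∈ L → ed x z ∈ L → ed y z ∉ L) :
    Ge (f ⊥ L) ((X + 1) * (X + 2) ^ (k + 1 + 1) * (X + 3) ^ 2) := by
  obtain ⟨u, v, M₀, huv, rfl, hT₀⟩ := exists_good hC hT (Finset.card_pos.mp (by omega))
  obtain ⟨huS, hvS⟩ := edge_mem_left hC huv (Multiset.mem_cons_self _ _)
  obtain ⟨a, b, c, d, M, rfl, ha, hb, hc, hd, hM⟩ := hC.star2 huv (Multiset.nodup_cons.mp hN).1
  obtain ⟨hab, hcd, hac, had, hbc, hN'⟩ := tf_red huv hN ha.2.1 ha.2.2 hb.2.1 hb.2.2 hc.2.2 hd.2.2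
    hc.2.1 hd.2.1 htri
  have hC' := hC.red huv ha hb hc hd hM hab hcd
  have hT' := hT₀.red huv ha hb hc hd hM
  have hcard : ((S.erase u).erase v).card = 2 * (k + 3) := card_erase2 huS hvS huv (by omega)
  have hfin := hIH _ _ hcard hC' hT' hN'
  have n3 : ed a c ∈ sp ⊥ (ed a b ::ₘ ed c d ::ₘ M) :=
    hT'.conn (by simp [ha]) (by simp [hc])
  have hr := (rung_graph huv ha.2.1 ha.2.2 hb.2.1 hb.2.2 hc.2.1 hc.2.2 hd.2.1 hd.2.2 hM
    (hT.bridge huS hvS) n3).1
  refine hr.trans ((Ge.mul_left Pos.y1 hfin).trans (Ge.of_eq (by ring)))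

/-- double edges -/
lemma step_digon {k : ℕ} (hIH : 1 ≤ k → SD V (k - 1)) {S : Finset V} {g : V → ZMod 2}
    {M : Multiset (V → ZMod 2)} (hS : S.card = 2 * (k + 2)) (hC : Cub S (g ::ₘ g ::ₘ M))
    (hT : TwoEC S (g ::ₘ g ::ₘ M)) (hN : (g ::ₘ M).Nodup) :
    Ge (f ⊥ (g ::ₘ g ::ₘ M)) ((X + 1) * (X + 2) ^ (k + 1) * (X + 3)) := by
  obtain ⟨p, hp, q, hq, hpq, rfl⟩ := hC.edge g (by simp)
  have h1 := hC.deg p hp
  rw [dg_ed hpq, dg_ed hpq] at h1
  simp only [true_or, if_true] at h1
  obtain ⟨g₁, M₁, rfl, k1, k2⟩ := split1 (M := M) (u := p) (by omega)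
  obtain ⟨a, haS, hap, rfl⟩ := hC.edge_at (g := g₁) (by simp) k1
  have haq : a ≠ q := by rintro rfl; simp at hN
  have h2 := hC.deg q hq
  rw [dg_ed hpq, dg_ed hpq, dg_ed hap.symm] at h2
  simp only [or_true, if_true, hpq.symm, haq.symm, or_false, if_false] at h2
  obtain ⟨g₂, M₂, rfl, l1, l2⟩ := split1 (M := M₁) (u := q) (by omega)
  obtain ⟨b, hbS, hbq, rfl⟩ := hC.edge_at (g := g₂) (by simp) l1
  have hbp : b ≠ p := by
    rintro rfl
    have := k2 (ed q b) (by simp)
    rw [ed_at_right hpq.symm] at this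
    exact one_ne_zero this
  have hM : ∀ g ∈ M₂, g p = 0 ∧ g q = 0 := fun g hg => ⟨k2 g (by simp [hg]), l2 g hg⟩
  have hN2 : M₂.Nodup := by
    simp only [Multiset.nodup_cons] at hN
    exact hN.2.2.2
  have hda := hC.deg a haS
  rw [dg_ed hpq, dg_ed hpq, dg_ed hap.symm, dg_ed hbq.symm] at hda
  simp only [hap, haq, or_true, if_true, false_or, or_false, if_false] at hda
  -- `a ≠ b`
  have hab : a ≠ b := by
    rintro rfl
    simp only [if_true] at hda
    obtain ⟨g₃, M₃, rfl, m1, m2⟩ := split1 (M := M₂) (u := a) (by omega)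
    obtain ⟨s, hs, hsn⟩ : ∃ s ∈ S, s ∉ ({p, q, a} : Finset V) := by
      by_contra hno
      push Not at hno
      have h7 := Finset.card_le_card (show S ⊆ {p, q, a} from hno)
      have h8 := Finset.card_le_three (a := p) (b := q) (c := a)
      omega
    simp only [Finset.mem_insert, Finset.mem_singleton, not_or] at hsn
    set x : V → ZMod 2 := fun s => if s ∈ ({p, q, a} : Finset V) then 1 else 0 with hx
    have xp : x p = 1 := by simp [hx]
    have xq : x q = 1 := by simp [hx]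
    have xa : x a = 1 := by simp [hx]
    have xs : x s = 0 := by simp [hx, hsn]
    have h9 := hT x p hp s hs (by rw [xp, xs]; exact one_ne_zero)
    have h10 : cut x M₃ = 0 := by
      apply cut_eq_zero
      intro g hg
      apply lab_zero_of
      intro r hgr
      have hr1 : r ≠ p := by rintro rfl; exact hgr (hM g (by simp [hg])).1
      have hr2 : r ≠ q := by rintro rfl; exact hgr (hM g (by simp [hg])).2
      have hr4 : r ≠ a := by rintro rfl; exact hgr (m2 g hg)
      simp [hx, hr1, hr2, hr4]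
    simp only [cut_ed, xp, xq, xa, ind_eq rfl] at h9
    rw [cut_cons, h10] at h9
    split_ifs at h9 <;> omega
  simp only [hab, if_false] at hda
  have hdga : dg a M₂ = 2 := by omega
  rcases Nat.eq_zero_or_pos k with hk | hk
  · -- four vertices: a second double edge
    subst hk
    exfalso
    have hset : ({p, q, a, b} : Finset V) = S := by
      apply Finset.eq_of_subset_of_card_le
      · intro s hs
        simp only [Finset.mem_insert, Finset.mem_singleton] at hs
        rcases hs with rfl | rfl | rfl | rfl <;> assumption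
      · rw [hS, Finset.card_insert_of_notMem (by simp [hpq, hap.symm, hbp.symm]),
          Finset.card_insert_of_notMem (by simp [haq.symm, hbq.symm]),
          Finset.card_pair hab]
    obtain ⟨g₃, g₄, M₃, rfl, n1, n2, n3⟩ := split2 hdga
    have hw : ∀ g, g ∈ g₃ ::ₘ g₄ ::ₘ M₃ → g a = 1 → g = ed a b := by
      intro g hg hga
      obtain ⟨w, hwS, hwa, rfl⟩ := hC.edge_at (g := g) (by
        simp only [Multiset.mem_cons] at hg ⊢; tauto) hga
      have h5 := hM _ hg
      rw [← hset] at hwS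
      simp only [Finset.mem_insert, Finset.mem_singleton] at hwS
      rcases hwS with rfl | rfl | rfl | rfl
      · rw [ed_at_right hwa.symm] at h5; exact absurd h5.1 one_ne_zero
      · rw [ed_at_right hwa.symm] at h5; exact absurd h5.2 one_ne_zero
      · exact absurd rfl hwa
      · rfl
    have e3 := hw g₃ (by simp) n1
    have e4 := hw g₄ (by simp) n2
    rw [e3, e4] at hN2
    simp at hN2
  · obtain ⟨k, rfl⟩ : ∃ k', k = k' + 1 := ⟨k - 1, by omega⟩
    rw [Nat.add_sub_cancel] at hIH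
    rw [f_digon hpq hap haq hbp hbq hM]
    have hC' : Cub ((S.erase p).erase q) (ed a b ::ₘ M₂) := by
      constructor
      · intro g hg
        rw [Multiset.mem_cons] at hg
        rcases hg with rfl | hg
        · exact ⟨a, by simp [haS, hap, haq], b, by simp [hbS, hbp, hbq], hab, rfl⟩
        · obtain ⟨s, hs, t, ht, hst, rfl⟩ := hC.edge g (by simp [hg])
          obtain ⟨m1, m2⟩ := hM _ hg
          refine ⟨s, ?_, t, ?_, hst, rfl⟩
          · simp only [Finset.mem_erase]
            refine ⟨?_, ?_, hs⟩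
            · rintro rfl; rw [ed_at_left hst] at m2; exact one_ne_zero m2
            · rintro rfl; rw [ed_at_left hst] at m1; exact one_ne_zero m1
          · simp only [Finset.mem_erase]
            refine ⟨?_, ?_, ht⟩
            · rintro rfl; rw [ed_at_right hst] at m2; exact one_ne_zero m2
            · rintro rfl; rw [ed_at_right hst] at m1; exact one_ne_zero m1
      · intro s hs
        simp only [Finset.mem_erase] at hs
        obtain ⟨hsq, hsp, hsS⟩ := hs
        have h := hC.deg s hsS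
        rw [dg_ed hpq, dg_ed hpq, dg_ed hap.symm, dg_ed hbq.symm] at h
        simp only [hsp, hsq, false_or, or_self, if_false, add_zero] at h
        rw [dg_ed hab]
        by_cases h1 : s = a
        · have h2 : s ≠ b := fun h2 => hab (h1.symm.trans h2)
          simp only [h1, hab, if_true, if_false, true_or, or_false, add_zero] at h ⊢
          omega
        · simp only [h1, false_or, if_false, add_zero] at h ⊢
          exact h
    have hT' : TwoEC ((S.erase p).erase q) (ed a b ::ₘ M₂) := by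
      intro x s hs t ht hst
      simp only [Finset.mem_erase] at hs ht
      set y : V → ZMod 2 := fun s => if s = p then x a else if s = q then x a else x s with hy
      have y1 : ∀ s, s ≠ p → s ≠ q → y s = x s := fun s h1 h2 => by simp [hy, h1, h2]
      have yp : y p = x a := by simp [hy]
      have yq : y q = x a := by simp [hy]
      have h := hT y s hs.2.2 t ht.2.2 (by
        rw [y1 s hs.2.1 hs.1, y1 t ht.2.1 ht.1]; exact hst)
      have e : cut y M₂ = cut x M₂ := by
        apply cut_congr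
        intro g hg w hw
        apply y1
        · rintro rfl; exact hw (hM g hg).1
        · rintro rfl; exact hw (hM g hg).2
      simp only [cut_ed, e, yp, yq, y1 a hap haq, y1 b hbp hbq, ind_eq rfl] at h
      rw [cut_ed]
      omega
    have hcard : ((S.erase p).erase q).card = 2 * (k + 2) := card_erase2 hp hq hpq (by omega)
    have hfin := hIH (by omega) _ _ hcard hC' hT' (near_cons hN2)
    refine (Ge.mul_left Pos.y1 hfin).trans (Ge.of_eq (by ring))

/-- the lower bounds -/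
theorem main (V : Type) [Fintype V] [DecidableEq V] (k : ℕ) : SM V k ∧ SD V k := by
  have h0 : SD V 0 := by
    intro S L hS hC hT hN
    rcases hN with hN | ⟨g, M, rfl, hN⟩
    · exact (K4 hC hN (by omega)).trans (Ge.of_eq (by ring))
    · exact step_digon (k := 0) (by omega) hS hC hT hN
  have hM : ∀ k, SD V k → (∀ k', k = k' + 1 → SM V k') → SM V k := by
    intro k hD hM S L hS hC hT hN
    by_cases htri : ∃ u v z, u ≠ v ∧ u ≠ z ∧ v ≠ z ∧ ed u v ∈ L ∧ ed u z ∈ L ∧ ed v z ∈ L
    · obtain ⟨u, v, z, h1, h2, h3, h4, h5, h6⟩ := htri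
      exact step_tri hD hS hC hT hN h1 h2 h3 h4 h5 h6
    · push Not at htri
      rcases k with _ | k
      · exact step_six hS hC hT hN (fun x y z h1 h2 h3 h4 h5 => htri x y z h1 h2 h3 h4 h5)
      · exact step_tf (hM k rfl) hS hC hT hN (fun x y z h1 h2 h3 h4 h5 => htri x y z h1 h2 h3 h4 h5)
  induction k with
  | zero => exact ⟨hM 0 h0 (by omega), h0⟩
  | succ k ih =>
    have hD : SD V (k + 1) := by
      intro S L hS hC hT hN
      rcases hN with hN | ⟨g, M, rfl, hN⟩
      · exact (ih.1 S L hS hC hT hN).trans (ge_M_D k)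
      · exact step_digon (k := k + 1) (fun _ => ih.2) hS hC hT hN
    exact ⟨hM (k + 1) hD (fun k' h => by
      have : k = k' := by omega
      subst this; exact ih.1), hD⟩

end Pool.Agent.R21.FP
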