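import Pool.Agent.R21.FP.Star

/-!
# The complete graph, triangles, good edges
-/

set_option autoImplicit false
set_option linter.unusedSectionVars false

open Submodule Module Polynomial

namespace Pool.Agent.R21.FP

variable {V : Type} [Fintype V] [DecidableEq V]

/-- indicator -/
def ind (c : ZMod 2) : ℕ := if c = 1 then 1 else 0

lemma ind_eq {x y : ZMod 2} (h : x = y) : ind (x + y) = 0 := by
  rw [h, CharTwo.add_self_eq_zero]; rfl

lemma ind_ne {x y : ZMod 2} (h : x ≠ y) : ind (x + y) = 1 := by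
  rcases zm2 x with rfl | rfl <;> rcases zm2 y with rfl | rfl
  · exact absurd rfl h
  · rfl
  · rfl
  · exact absurd rfl h

lemma eq_of_ne_ne {x y z : ZMod 2} (h : x ≠ z) (h' : y ≠ z) : x = y := by
  rcases zm2 x with rfl | rfl <;> rcases zm2 y with rfl | rfl <;> rcases zm2 z with rfl | rfl <;>
    first | rfl | exact absurd rfl h | exact absurd rfl h'

lemma cut_ed (x : V → ZMod 2) (a b : V) (L : Multiset (V → ZMod 2)) :
    cut x (ed a b ::ₘ L) = cut x L + ind (x a + x b) := by
  rw [cut_cons, lab_ed]; rfl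

lemma dg_ed {a b : V} (hab : a ≠ b) (s : V) (L : Multiset (V → ZMod 2)) :
    dg s (ed a b ::ₘ L) = dg s L + if s = a ∨ s = b then 1 else 0 := by
  rw [dg_cons]; simp only [ed_eq_one hab]

lemma full4 {S : Finset V} {L : Multiset (V → ZMod 2)} (hC : Cub S L) (hN : L.Nodup)
    (hS : S.card = 4) {s t : V} (hs : s ∈ S) (ht : t ∈ S) (hst : s ≠ t) : ed s t ∈ L := by
  classical
  obtain ⟨N, M', rfl, h2, h3, h4⟩ := split_filter L s
  rw [hC.deg s hs] at h2
  have hNN : N.Nodup := (Multiset.nodup_add.mp hN).1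
  set A : Finset V := (S.erase s).filter (fun a => ed s a ∈ N) with hA
  have h5 : N.toFinset ⊆ A.image (ed s) := by
    intro g hg
    rw [Multiset.mem_toFinset] at hg
    obtain ⟨a, ha, has, rfl⟩ := hC.edge_at (Multiset.mem_add.mpr (Or.inl hg)) (h3 g hg)
    rw [Finset.mem_image]
    exact ⟨a, by simp [hA, ha, has, hg], rfl⟩
  have h6 : N.toFinset.card = 3 := by rw [Multiset.toFinset_card_of_nodup hNN, h2]
  have h7 : 3 ≤ A.card := by
    rw [← h6]; exact (Finset.card_le_card h5).trans Finset.card_image_le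
  have h8 : A = S.erase s := by
    apply Finset.eq_of_subset_of_card_le (Finset.filter_subset _ _)
    rw [Finset.card_erase_of_mem hs, hS]
    exact h7
  have h9 : t ∈ A := by rw [h8]; simp [ht, hst.symm]
  rw [hA, Finset.mem_filter] at h9
  exact Multiset.mem_add.mpr (Or.inl h9.2)

/-- the complete graph on four vertices -/
lemma K4 {S : Finset V} {L : Multiset (V → ZMod 2)} (hC : Cub S L) (hN : L.Nodup)
    (hS : S.card = 4) : Ge (f ⊥ L) ((X + 1) * (X + 2) * (X + 3)) := by
  obtain ⟨u, hu, v, hv, huv⟩ := Finset.one_lt_card.mp (by omega : 1 < S.card)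
  obtain ⟨M₀, rfl⟩ := Multiset.exists_cons_of_mem (full4 hC hN hS hu hv huv)
  obtain ⟨a, b, c, d, M, rfl, ha, hb, hc, hd, hM⟩ := hC.star2 huv (Multiset.nodup_cons.mp hN).1
  have hab : a ≠ b := by
    rintro rfl
    simp at hN
  have hcd : c ≠ d := by
    rintro rfl
    simp at hN
  have hcard : ((S.erase u).erase v).card = 2 := by
    rw [Finset.card_erase_of_mem (by simp [hv, huv.symm]), Finset.card_erase_of_mem hu, hS]
  have hset : (S.erase u).erase v = {a, b} := by
    symm
    apply Finset.eq_of_subset_of_card_le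
    · intro s hs
      simp only [Finset.mem_insert, Finset.mem_singleton] at hs
      rcases hs with rfl | rfl <;> simp [ha, hb]
    · rw [hcard, Finset.card_pair hab]
  have hin : ∀ s ∈ S, s ≠ u → s ≠ v → s = a ∨ s = b := by
    intro s h1 h2 h3
    have : s ∈ (S.erase u).erase v := by simp [h1, h2, h3]
    rw [hset] at this
    simpa using this
  -- reduce to `c = a`, `d = b`
  have key : ∀ M : Multiset (V → ZMod 2), (∀ g ∈ M, g u = 0 ∧ g v = 0) →
      Cub S (ed u v ::ₘ ed u a ::ₘ ed u b ::ₘ ed v a ::ₘ ed v b ::ₘ M) →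
      Ge (f ⊥ (ed u v ::ₘ ed u a ::ₘ ed u b ::ₘ ed v a ::ₘ ed v b ::ₘ M))
        ((X + 1) * (X + 2) * (X + 3)) := by
    intro M hM hC
    have h1 := hC.deg a ha.1
    rw [dg_ed huv, dg_ed ha.2.1.symm, dg_ed hb.2.1.symm, dg_ed ha.2.2.symm, dg_ed hb.2.2.symm] at h1
    simp only [ha.2.1, ha.2.2, hab, or_false, or_true, false_or, if_false, if_true] at h1
    obtain ⟨g, M', rfl, k1, k2⟩ := split1 (M := M) (u := a) (by omega)
    obtain ⟨w, hw, hwa, rfl⟩ := hC.edge_at (g := g) (by simp) k1
    obtain ⟨l1, l2⟩ := hM (ed a w) (by simp)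
    have hwu : w ≠ u := by
      rintro rfl; rw [ed_at_right hwa.symm] at l1; exact one_ne_zero l1
    have hwv : w ≠ v := by
      rintro rfl; rw [ed_at_right hwa.symm] at l2; exact one_ne_zero l2
    have hwb : w = b := (hin w hw hwu hwv).resolve_left hwa
    subst hwb
    have hM' : M' = 0 := by
      apply Multiset.eq_zero_of_forall_notMem
      intro g hg
      obtain ⟨s, hs, t, ht, hst, rfl⟩ := hC.edge g (by simp [hg])
      have m1 := hM _ (Multiset.mem_cons_of_mem hg)
      have m2 := k2 _ hg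
      have s1 : s ≠ u := by rintro rfl; rw [ed_at_left hst] at m1; exact one_ne_zero m1.1
      have s2 : s ≠ v := by rintro rfl; rw [ed_at_left hst] at m1; exact one_ne_zero m1.2
      have s3 : s ≠ a := by rintro rfl; rw [ed_at_left hst] at m2; exact one_ne_zero m2
      have t1 : t ≠ u := by rintro rfl; rw [ed_at_right hst] at m1; exact one_ne_zero m1.1
      have t2 : t ≠ v := by rintro rfl; rw [ed_at_right hst] at m1; exact one_ne_zero m1.2
      have t3 : t ≠ a := by rintro rfl; rw [ed_at_right hst] at m2; exact one_ne_zero m2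
      exact hst (((hin s hs s1 s2).resolve_left s3).trans ((hin t ht t1 t2).resolve_left t3).symm)
    subst hM'
    have hg := rung_graph (c := a) (d := w) huv ha.2.1 ha.2.2 hb.2.1 hb.2.2 ha.2.1 ha.2.2 hb.2.1
      hb.2.2 hM (by
        have h1 := add_mem (S := Submodule (ZMod 2) (V → ZMod 2))
          (mem_sp (U := ⊥) (L := ed u a ::ₘ ed u w ::ₘ ed v a ::ₘ ed v w ::ₘ ed a w ::ₘ 0)
            (v := ed u a) (by simp)) (mem_sp (v := ed v a) (by simp))
        have e : ed u a + ed v a = ed u v := by rw [ed_comm v a, ed_add']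
        rwa [e] at h1) (by rw [ed_self]; exact zero_mem _)
    have h2 := hg.2 (mem_sp (by simp)) (mem_sp (by simp))
    refine h2.trans (Ge.of_eq ?_)
    rw [f_three]
    · ring
    · rw [mem_bot]
      intro h
      have := congrFun h a
      rw [ed_at_left hwa.symm] at this
      exact one_ne_zero this
  rcases hin c hc.1 hc.2.1 hc.2.2 with rfl | rfl
  · have hdb : d = b := (hin d hd.1 hd.2.1 hd.2.2).resolve_left hcd.symm
    subst hdb
    exact key M hM hC
  · have hda : d = a := (hin d hd.1 hd.2.1 hd.2.2).resolve_right hcd.symm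
    subst hda
    rw [Multiset.cons_swap (ed v c) (ed v d)] at hC ⊢
    exact key M hM hC

/-! ### triangles -/

section Triangle

variable {S : Finset V} {u v z a d w : V} {M' : Multiset (V → ZMod 2)}

/-- deletion of an edge of a triangle -/
lemma tri_del (hT : TwoEC S (ed u v ::ₘ ed u z ::ₘ ed u a ::ₘ ed v z ::ₘ ed v d ::ₘ ed z w ::ₘ M'))
    (huS : u ∈ S) (hvS : v ∈ S) (huv : u ≠ v) (huz : u ≠ z) (hvz : v ≠ z)
    (ha : a ∈ S ∧ a ≠ u ∧ a ≠ v) (hd : d ∈ S ∧ d ≠ u ∧ d ≠ v) (hw : w ≠ u ∧ w ≠ v)
    (hM : ∀ g ∈ M', g u = 0 ∧ g v = 0) :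
    TwoEC S (ed u z ::ₘ ed u a ::ₘ ed v z ::ₘ ed v d ::ₘ ed z w ::ₘ M') := by
  intro x s hs t ht hst
  have h0 := hT x s hs t ht hst
  rw [cut_ed] at h0
  by_cases h1 : x u = x v
  · rw [ind_eq h1] at h0; omega
  simp only [cut_ed] at h0 ⊢
  by_cases h2 : x z = x u
  · have e1 : ind (x v + x z) = 1 := ind_ne (by rw [h2]; exact fun h => h1 h.symm)
    by_cases h3 : x v = x d
    · set y : V → ZMod 2 := fun s => if s = v then x u else x s with hy
      have yv : y v = x u := by simp [hy]
      have y1 : ∀ s, s ≠ v → y s = x s := fun s h => by simp [hy, h]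
      have h4 := hT y d hd.1 u huS (by
        rw [y1 d hd.2.2, y1 u huv, ← h3]; exact fun h => h1 h.symm)
      have e2 : cut y M' = cut x M' := by
        apply cut_congr
        intro g hg r hr
        apply y1
        rintro rfl; exact hr (hM g hg).2
      simp only [cut_ed, e2, yv, y1 u huv, y1 z hvz.symm, y1 a ha.2.2, y1 d hd.2.2, y1 w hw.2] at h4
      have e3 : ind (x u + x u) = 0 := ind_eq rfl
      have e4 : ind (x u + x z) = 0 := ind_eq h2.symm
      have e5 : ind (x u + x d) = 1 := ind_ne (by rw [← h3]; exact h1)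
      omega
    · have e6 : ind (x v + x d) = 1 := ind_ne h3
      omega
  · have h2' : x z = x v := eq_of_ne_ne h2 (fun h => h1 h.symm)
    have e1 : ind (x u + x z) = 1 := ind_ne (fun h => h2 h.symm)
    by_cases h3 : x u = x a
    · set y : V → ZMod 2 := fun s => if s = u then x v else x s with hy
      have yu : y u = x v := by simp [hy]
      have y1 : ∀ s, s ≠ u → y s = x s := fun s h => by simp [hy, h]
      have h4 := hT y a ha.1 v hvS (by
        rw [y1 a ha.2.1, y1 v huv.symm, ← h3]; exact h1)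
      have e2 : cut y M' = cut x M' := by
        apply cut_congr
        intro g hg r hr
        apply y1
        rintro rfl; exact hr (hM g hg).1
      simp only [cut_ed, e2, yu, y1 v huv.symm, y1 z huz.symm, y1 a ha.2.1, y1 d hd.2.1,
        y1 w hw.1] at h4
      have e3 : ind (x v + x v) = 0 := ind_eq rfl
      have e4 : ind (x v + x z) = 0 := ind_eq h2'.symm
      have e5 : ind (x v + x a) = 1 := ind_ne (by rw [← h3]; exact fun h => h1 h.symm)
      omega
    · have e6 : ind (x u + x a) = 1 := ind_ne h3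
      omega

/-- connectedness of the graph without the two vertices -/
lemma tri_conn (hT : TwoEC S (ed u v ::ₘ ed u z ::ₘ ed u a ::ₘ ed v z ::ₘ ed v d ::ₘ ed z w ::ₘ M'))
    (hzS : z ∈ S) (haS : a ∈ S) (hwS : w ∈ S) (huz : u ≠ z) (hvz : v ≠ z)
    (ha : a ≠ u ∧ a ≠ v ∧ a ≠ z) (hd : d ≠ u ∧ d ≠ v ∧ d ≠ z) (hw : w ≠ u ∧ w ≠ v ∧ w ≠ z)
    (hM : ∀ g ∈ M', g u = 0 ∧ g v = 0 ∧ g z = 0) :
    ed z a ∈ sp ⊥ (ed z w ::ₘ M') := by
  by_contra hn
  obtain ⟨x, h1, h2⟩ := exists_sep hn
  rw [lab_ed] at h2
  have hza : x z ≠ x a := by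
    intro h3; rw [h3, CharTwo.add_self_eq_zero] at h2; exact h2 rfl
  have hzw : x z = x w := by
    have := h1 (ed z w) (mem_sp (by simp))
    rw [lab_ed] at this
    by_contra h3
    have h4 := ind_ne h3
    rw [this] at h4
    exact absurd h4 (by decide)
  have hM0 : cut x M' = 0 := cut_eq_zero (fun g hg => h1 g (mem_sp (by simp [hg])))
  -- first labelling
  set y : V → ZMod 2 := fun s => if s = u then x z else if s = v then x z else x s with hy
  have yu : y u = x z := by simp [hy]
  have yv : y v = x z := by simp [hy]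
  have y1 : ∀ s, s ≠ u → s ≠ v → y s = x s := fun s h h' => by simp [hy, h, h']
  have h4 := hT y z hzS a haS (by
    rw [y1 z huz.symm hvz.symm, y1 a ha.1 ha.2.1]; exact hza)
  have e2 : cut y M' = 0 := by
    rw [← hM0]
    apply cut_congr
    intro g hg r hr
    apply y1
    · rintro rfl; exact hr (hM g hg).1
    · rintro rfl; exact hr (hM g hg).2.1
  simp only [cut_ed, e2, yu, yv, y1 z huz.symm hvz.symm, y1 a ha.1 ha.2.1, y1 d hd.1 hd.2.1,
    y1 w hw.1 hw.2.1] at h4
  have e3 : ind (x z + x z) = 0 := ind_eq rfl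
  have e4 : ind (x z + x w) = 0 := ind_eq hzw
  have e5 : ind (x z + x a) = 1 := ind_ne hza
  have hzd : x z ≠ x d := by
    intro h
    rw [ind_eq h] at h4
    omega
  have had : x a = x d := eq_of_ne_ne (fun h => hza h.symm) (fun h => hzd h.symm)
  -- second labelling
  set y' : V → ZMod 2 := fun s => if s = u then x a else if s = v then x a else
    if s = z then x a else x s with hy'
  have zu : y' u = x a := by simp [hy']
  have zv : y' v = x a := by simp [hy']
  have zz : y' z = x a := by simp [hy']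
  have z1 : ∀ s, s ≠ u → s ≠ v → s ≠ z → y' s = x s := fun s h h' h'' => by simp [hy', h, h', h'']
  have h5 := hT y' z hzS w hwS (by
    rw [zz, z1 w hw.1 hw.2.1 hw.2.2, ← hzw]; exact fun h => hza h.symm)
  have e6 : cut y' M' = 0 := by
    rw [← hM0]
    apply cut_congr
    intro g hg r hr
    apply z1
    · rintro rfl; exact hr (hM g hg).1
    · rintro rfl; exact hr (hM g hg).2.1
    · rintro rfl; exact hr (hM g hg).2.2
  simp only [cut_ed, e6, zu, zv, zz, z1 a ha.1 ha.2.1 ha.2.2, z1 d hd.1 hd.2.1 hd.2.2,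
    z1 w hw.1 hw.2.1 hw.2.2] at h5
  have e7 : ind (x a + x a) = 0 := ind_eq rfl
  have e8 : ind (x a + x d) = 0 := ind_eq had
  have e9 : ind (x a + x w) ≤ 1 := by unfold ind; split_ifs <;> omega
  omega

end Triangle

/-! ### good edges in cubic two edge connected graphs -/

lemma sum_dg (A : Finset V) (x : V → ZMod 2) (L : Multiset (V → ZMod 2))
    (h : ∀ g ∈ L, (A.filter (fun s => g s = 1)).card = ind (lab x g)) :
    ∑ s ∈ A, dg s L = cut x L := by
  induction L using Multiset.induction_on with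
  | empty => simp [dg_zero, cut_zero]
  | cons g L ih =>
    simp only [dg_cons, Finset.sum_add_distrib]
    rw [ih (fun g' hg' => h g' (Multiset.mem_cons_of_mem hg')), cut_cons, Finset.sum_boole]
    have := h g (Multiset.mem_cons_self g L)
    rw [this]
    rfl

lemma cut_submod (S : Finset V) (x y : V → ZMod 2) (L : Multiset (V → ZMod 2))
    (h : ∀ g ∈ L, ∃ a ∈ S, ∃ b ∈ S, a ≠ b ∧ g = ed a b) :
    cut (fun s => x s * y s) L + cut (fun s => x s + y s + x s * y s) L ≤ cut x L + cut y L := by
  induction L using Multiset.induction_on with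
  | empty => simp [cut_zero]
  | cons g L ih =>
    have ih' := ih (fun g' hg' => h g' (Multiset.mem_cons_of_mem hg'))
    obtain ⟨a, -, b, -, -, rfl⟩ := h g (Multiset.mem_cons_self g L)
    rw [cut_ed, cut_ed, cut_ed, cut_ed]
    have key : ∀ xa xb ya yb : ZMod 2, ind (xa * ya + xb * yb)
        + ind (xa + ya + xa * ya + (xb + yb + xb * yb)) ≤ ind (xa + xb) + ind (ya + yb) := by
      decide
    have := key (x a) (x b) (y a) (y b)
    omega

lemma cut_compl (S : Finset V) (x : V → ZMod 2) (L : Multiset (V → ZMod 2))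
    (h : ∀ g ∈ L, ∃ a ∈ S, ∃ b ∈ S, a ≠ b ∧ g = ed a b) :
    cut (fun s => x s + 1) L = cut x L := by
  induction L using Multiset.induction_on with
  | empty => simp [cut_zero]
  | cons g L ih =>
    have ih' := ih (fun g' hg' => h g' (Multiset.mem_cons_of_mem hg'))
    obtain ⟨a, -, b, -, -, rfl⟩ := h g (Multiset.mem_cons_self g L)
    rw [cut_ed, cut_ed, ih']
    have key : ∀ xa xb : ZMod 2, ind (xa + 1 + (xb + 1)) = ind (xa + xb) := by decide
    rw [key]

/-- there is an edge whose deletion is two edge connected -/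
lemma exists_good {S : Finset V} {L : Multiset (V → ZMod 2)} (hC : Cub S L) (hT : TwoEC S L)
    (hS : S.Nonempty) : ∃ u v M₀, u ≠ v ∧ L = ed u v ::ₘ M₀ ∧ TwoEC S M₀ := by
  by_contra H
  push Not at H
  -- the bad cut of an edge
  have bad : ∀ u v, u ≠ v → ed u v ∈ L → ∃ y : V → ZMod 2, y u ≠ y v ∧ cut y L = 2 := by
    intro u v huv huvL
    obtain ⟨M₀, hM₀⟩ := Multiset.exists_cons_of_mem huvL
    have h1 := H u v M₀ huv hM₀
    unfold TwoEC at h1
    push Not at h1
    obtain ⟨y, s, hs, t, ht, hst, h2⟩ := h1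
    have h3 := hT y s hs t ht hst
    rw [hM₀, cut_ed] at h3
    have h4 : y u ≠ y v := by
      intro h5
      rw [ind_eq h5] at h3
      omega
    refine ⟨y, h4, ?_⟩
    rw [hM₀, cut_ed]
    rw [ind_ne h4] at h3 ⊢
    omega
  have claim : ∀ m : ℕ, ∀ x : V → ZMod 2, (S.filter (fun s => x s = 1)).card = m →
      (∃ s ∈ S, ∃ t ∈ S, x s ≠ x t) → cut x L ≠ 2 := by
    intro m
    induction m using Nat.strong_induction_on with
    | _ m ih =>
      intro x hm hx hcut
      -- an edge inside
      have hin : ∃ p ∈ S, ∃ q ∈ S, p ≠ q ∧ ed p q ∈ L ∧ x p = 1 ∧ x q = 1 := by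
        by_contra hno
        push Not at hno
        have h1 : ∑ s ∈ S.filter (fun s => x s = 1), dg s L = cut x L := by
          apply sum_dg
          intro g hg
          obtain ⟨p, hp, q, hq, hpq, rfl⟩ := hC.edge g hg
          rw [lab_ed]
          have h2 : (S.filter (fun s => x s = 1)).filter (fun s => ed p q s = 1)
              = ({p, q} : Finset V).filter (fun s => x s = 1) := by
            ext s
            simp only [Finset.mem_filter, ed_eq_one hpq, Finset.mem_insert, Finset.mem_singleton]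
            constructor
            · rintro ⟨⟨_, k1⟩, k2⟩; exact ⟨k2, k1⟩
            · rintro ⟨k1, k2⟩
              refine ⟨⟨?_, k2⟩, k1⟩
              rcases k1 with rfl | rfl <;> assumption
          rw [h2, Finset.filter_insert, Finset.filter_singleton]
          rcases zm2 (x p) with h3 | h3 <;> rcases zm2 (x q) with h4 | h4
          · rw [h3, h4]; simp [ind]
          · rw [h3, h4]; simp [ind]
          · rw [h3, h4]; simp [ind]
          · exact absurd h4 (hno p hp q hq hpq hg h3)
        have h5 : ∑ s ∈ S.filter (fun s => x s = 1), dg s L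
            = 3 * (S.filter (fun s => x s = 1)).card := by
          rw [Finset.sum_congr rfl (fun s hs => hC.deg s (Finset.mem_filter.mp hs).1),
            Finset.sum_const, smul_eq_mul, mul_comm]
        omega
      obtain ⟨p, hp, q, hq, hpq, hpqL, hxp, hxq⟩ := hin
      obtain ⟨y₀, hy₀, hy₀c⟩ := bad p q hpq hpqL
      obtain ⟨s₀, hs₀, hxs₀⟩ : ∃ s₀ ∈ S, x s₀ = 0 := by
        obtain ⟨s, hs, t, ht, hst⟩ := hx
        rcases zm2 (x s) with h | h
        · exact ⟨s, hs, h⟩
        · rcases zm2 (x t) with h' | h'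
          · exact ⟨t, ht, h'⟩
          · exact absurd (h.trans h'.symm) hst
      obtain ⟨y, hy, hyc, hys₀⟩ : ∃ y : V → ZMod 2, y p ≠ y q ∧ cut y L = 2 ∧ y s₀ = 0 := by
        rcases zm2 (y₀ s₀) with h | h
        · exact ⟨y₀, hy₀, hy₀c, h⟩
        · refine ⟨fun s => y₀ s + 1, fun h' => hy₀ (add_right_cancel h'), ?_, ?_⟩
          · rw [cut_compl S y₀ L hC.edge]; exact hy₀c
          · show y₀ s₀ + 1 = 0
            rw [h]; decide
      have hsub := cut_submod S x y L hC.edge
      have h6 := hT (fun s => x s + y s + x s * y s) p hp s₀ hs₀ (by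
        show x p + y p + x p * y p ≠ x s₀ + y s₀ + x s₀ * y s₀
        rw [hxp, hxs₀, hys₀]
        rcases zm2 (y p) with h | h <;> rw [h] <;> decide)
      have h7 := hT (fun s => x s * y s) p hp q hq (by
        show x p * y p ≠ x q * y q
        rw [hxp, hxq, one_mul, one_mul]; exact hy)
      have h8 : cut (fun s => x s * y s) L = 2 := by omega
      refine ih _ ?_ (fun s => x s * y s) rfl ⟨p, hp, q, hq, by
        show x p * y p ≠ x q * y q
        rw [hxp, hxq, one_mul, one_mul]; exact hy⟩ h8
      rw [← hm]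
      apply Finset.card_lt_card
      rw [Finset.ssubset_iff_of_subset]
      · rcases zm2 (y p) with h | h
        · refine ⟨p, by simp [hp, hxp], ?_⟩
          simp [h]
        · have h' : y q = 0 := by
            rcases zm2 (y q) with h' | h'
            · exact h'
            · exact absurd (h.trans h'.symm) hy
          refine ⟨q, by simp [hq, hxq], ?_⟩
          simp [h']
      · intro s hs
        simp only [Finset.mem_filter] at hs ⊢
        refine ⟨hs.1, ?_⟩
        rcases zm2 (x s) with h | h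
        · rw [h, zero_mul] at hs; exact absurd hs.2 (by decide)
        · exact h
  obtain ⟨s, hs⟩ := hS
  have h1 := hC.deg s hs
  have h2 : ∃ g ∈ L, g s = 1 := by
    by_contra h3
    push Not at h3
    have := dg_eq_zero (s := s) (L := L) (fun g hg => (ne_one_iff _).mp (h3 g hg))
    omega
  obtain ⟨g, hg, hgs⟩ := h2
  obtain ⟨a, ha, has, rfl⟩ := hC.edge_at hg hgs
  obtain ⟨y, hy, hyc⟩ := bad s a has.symm hg
  exact claim _ y rfl ⟨s, hs, a, ha, hy⟩ hyc

end Pool.Agent.R21.FP
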